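import Pool.Agent.Helper21.FX.StF

set_option autoImplicit false

namespace Pool.Agent.Helper71.FX

open Polynomial Pool.Agent.Helper72.FX Pool.Agent.Helper21.FX

theorem hF2 : StF2 := by
  intro hFTH hF1 hPRI
  obtain ⟨θ, hsurj, hker, hE1, hE2, -⟩ := hFTH
  obtain ⟨hI, hs, hD⟩ := hF1 hPRI
  have hI8 : I8 = Ideal.span {pel s7 q7} := by
    unfold I8 pid
    rw [Ideal.map_bot, bot_sup_eq]
  have hpel : pel s7 q7 ≠ 0 := by
    intro h
    have h1 : (pel s7 q7).coeff 1 = s7 := by
      unfold pel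
      rw [coeff_sub, coeff_C_mul, coeff_X_one, mul_one, coeff_C_succ, sub_zero]
    rw [h, coeff_zero] at h1
    apply hs
    rw [← h1, map_zero]
    exact Ideal.zero_mem _
  have hmap : I8.map (C : B8 →+* B9) = Ideal.span {C (pel s7 q7)} := by
    rw [hI8, Ideal.map_span, Set.image_singleton]
  have hprime : (I8.map (C : B8 →+* B9)).IsPrime := by
    haveI := hI
    exact Ideal.isPrime_map_C_of_isPrime
  have hE2n : θ E20 ∉ I8.map (C : B8 →+* B9) := by
    rw [hE2, Ideal.mem_map_C_iff]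
    intro h
    have h1 := h 1
    rw [coeff_sub, coeff_C_mul, coeff_X_one, mul_one, coeff_C_succ, sub_zero] at h1
    exact hD h1
  have hE1n : θ E10 ≠ 0 := by
    rw [hE1]
    intro h
    rw [C_eq_zero, neg_eq_zero] at h
    exact hpel h
  have hx : s0 - r0 ≠ 0 := by
    intro h
    have h1 : (MvPolynomial.X 5 : P0) = MvPolynomial.X 3 := sub_eq_zero.1 h
    have h2 := MvPolynomial.X_injective h1
    exact absurd h2 (by decide)
  have h1 : ∀ y : P0, (s0 - r0) * y ∈ (⊥ : Ideal P0) ⊔ Ideal.span {E10} →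
      y ∈ (⊥ : Ideal P0) ⊔ Ideal.span {E10} := by
    refine swp ⊥ (s0 - r0) E10 ?_ ?_
    · intro y hy
      rw [Ideal.mem_bot] at hy ⊢
      exact (mul_eq_zero.1 hy).resolve_left hx
    · intro y hy
      rw [bot_sup_eq, ← hker, RingHom.mem_ker] at hy ⊢
      rw [map_mul] at hy
      exact (mul_eq_zero.1 hy).resolve_left hE1n
  have h2 : ∀ y : P0, (s0 - r0) * y ∈ Ideal.span {E10} ⊔ Ideal.span {E20} →
      y ∈ Ideal.span {E10} ⊔ Ideal.span {E20} := by
    refine swp (Ideal.span {E10}) (s0 - r0) E20 ?_ ?_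
    · intro y hy
      have := h1 y (by rw [bot_sup_eq]; exact hy)
      rwa [bot_sup_eq] at this
    · intro y hy
      obtain ⟨i, hi, w, hw, h3⟩ := Submodule.mem_sup.1 hy
      obtain ⟨u, rfl⟩ := Ideal.mem_span_singleton'.1 hi
      have hw0 : θ w = 0 := by
        rw [← hker] at hw
        exact hw
      have h4 : θ E20 * θ y ∈ I8.map (C : B8 →+* B9) := by
        rw [← map_mul, ← h3, map_add, hw0, add_zero, map_mul, hE1, hmap]
        refine Ideal.mem_span_singleton'.2 ⟨-θ u, ?_⟩
        rw [map_neg]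
        ring
      have h5 := (hprime.mem_or_mem h4).resolve_left hE2n
      rw [hmap] at h5
      obtain ⟨z, hz⟩ := Ideal.mem_span_singleton'.1 h5
      obtain ⟨z', rfl⟩ := hsurj z
      have h6 : y + z' * E10 ∈ Ideal.span {s0 - r0} := by
        rw [← hker, RingHom.mem_ker, map_add, map_mul, hE1, ← hz, map_neg]
        ring
      have h7 : y = -z' * E10 + (y + z' * E10) := by ring
      rw [h7]
      exact Submodule.add_mem_sup (Ideal.mem_span_singleton'.2 ⟨-z', rfl⟩) h6
  intro y hy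
  rw [Ideal.span_insert] at hy ⊢
  exact h2 y hy

end Pool.Agent.Helper71.FX
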