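import Pool.Agent.Helper41.FX.StK2

set_option autoImplicit false

namespace Pool.Agent.Helper71.FX

open Polynomial Pool.Agent.Helper72.FX Pool.Agent.Helper41.FX

/-- the zero function -/
private def zAF (A : Type) [CommRing A] (P : MC A) (Λ : Type) [AddCommGroup Λ] : AF A P Λ where
  f := fun _ _ _ => 0
  exact' := by intros; simp

theorem hST5 : StPENC → StSNK → StDQ → StRES → StEXT → StCKP → StCKN → StHOM → StPMX → StPMP →
    StST5 := by
  intro hPENC hSNK hDQ hRES hEXT hCKP hCKN hHOM hPMX hPMP P _ _ E1 E2 s Λ _ χ4 hc hreg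
  -- the ideal
  have hE1 : (C E1 : P[X]) ∈ pid (Ideal.span {E1}) E2 s :=
    Ideal.mem_sup_left (Ideal.mem_map_of_mem C (Ideal.mem_span_singleton_self E1))
  have hpi : pel E2 s ∈ pid (Ideal.span {E1}) E2 s :=
    Ideal.mem_sup_right (Ideal.mem_span_singleton_self _)
  obtain ⟨ψE, hψE⟩ := hEXT hDQ hSNK hRES P[X] (pid (Ideal.span {E1}) E2 s) Λ χ4
  have hle : (pid (Ideal.span {E1}) E2 s).map (C : P[X] →+* P[X][X]) ≤
      ((⊥ : Ideal P[X]).map (C : P[X] →+* P[X][X]) ⊔
        Ideal.span {C (C E1), C (-pel E2 s)}) := by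
    rw [Ideal.map_le_iff_le_comap]
    refine sup_le ?_ ?_
    · rw [Ideal.map_span, Set.image_singleton, Ideal.span_singleton_le_iff_mem, Ideal.mem_comap]
      exact Ideal.mem_sup_right (Ideal.subset_span (by simp))
    · rw [Ideal.span_singleton_le_iff_mem, Ideal.mem_comap]
      refine Ideal.mem_sup_right ?_
      have h : (C (pel E2 s) : P[X][X]) = -(C (-pel E2 s)) := by rw [map_neg, neg_neg]
      rw [h]
      exact (Ideal.neg_mem_iff _).2 (Ideal.subset_span (by simp))
  -- the difference of `χ4` vanishes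
  have hdif : ∀ (N : Type) [AddCommGroup N] [Module P[X] N], Module.Finite P[X] N →
      (∀ y : N, (C E1 : P[X]) • y = 0) → χ4.f (Ck (pel E2 s) N) = χ4.f (Kn (pel E2 s) N) := by
    obtain ⟨ψ, hψ⟩ := hDQ hSNK P[X] ((Ideal.span {E1}).map C) (pel E2 s) Λ χ4
    intro N _ _ hf hN
    have h0 := hHOM hPMX P (Ideal.span {E1}) Λ ψ (fun M _ _ hM hk => by
      rw [hψ, hc M hM hk, sub_self]) N hf (by
      rw [Ideal.map_span, Set.image_singleton]
      exact kil_span hN)
    rw [hψ] at h0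
    exact sub_eq_zero.1 h0
  have hnoeth : IsNoetherianRing P[X] := inferInstance
  have hkC : ∀ (N : Type) [AddCommGroup N] [Module P[X] N], (∀ y : N, (C E1 : P[X]) • y = 0) →
      kil (pid (Ideal.span {E1}) E2 s) (Ck (pel E2 s) N) := by
    intro N _ _ hN
    refine kil_sup ?_ ?_
    · rw [Ideal.map_span, Set.image_singleton]
      refine kil_span fun y => ?_
      obtain ⟨z, rfl⟩ := Submodule.mkQ_surjective _ y
      rw [← map_smul, hN, map_zero]
    · refine kil_span fun y => ?_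
      obtain ⟨z, rfl⟩ := Submodule.mkQ_surjective _ y
      rw [← map_smul, Submodule.mkQ_apply, Submodule.Quotient.mk_eq_zero]
      exact ⟨z, rfl⟩
  have hkK : ∀ (N : Type) [AddCommGroup N] [Module P[X] N], (∀ y : N, (C E1 : P[X]) • y = 0) →
      kil (pid (Ideal.span {E1}) E2 s) (Kn (pel E2 s) N) := by
    intro N _ _ hN
    refine kil_sup ?_ ?_
    · rw [Ideal.map_span, Set.image_singleton]
      refine kil_span fun y => Subtype.ext ?_
      exact hN y.1
    · refine kil_span fun y => Subtype.ext ?_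
      exact y.2
  have hfC : ∀ (x : P[X]) (N : Type) [AddCommGroup N] [Module P[X] N], Module.Finite P[X] N →
      Module.Finite P[X] (Ck x N) := by
    intro x N _ _ hf
    infer_instance
  have hfK : ∀ (x : P[X]) (N : Type) [AddCommGroup N] [Module P[X] N], Module.Finite P[X] N →
      Module.Finite P[X] (Kn x N) := by
    intro x N _ _ hf
    infer_instance
  -- finiteness and class of `N[X]`
  have hpf : ∀ (N : Type) [AddCommGroup N] [Module P[X] N], Module.Finite P[X] N →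
      Module.Finite P[X][X] (PolynomialModule P[X] N) := by
    intro N _ _ hf
    exact (hPMX P[X] N N N LinearMap.id LinearMap.id).2.2.2.1 hf
  have hpk : ∀ (N : Type) [AddCommGroup N] [Module P[X] N] (I : Ideal P[X]), kil I N →
      kil (I.map C) (PolynomialModule P[X] N) := by
    intro N _ _ I hN
    exact (hPMX P[X] N N N LinearMap.id LinearMap.id).2.2.2.2.1 I hN
  -- the pencil ideal is contained
  have hle2 : pid (⊥ : Ideal P[X]) (C E1) (-pel E2 s) ≤
      (pid (Ideal.span {E1}) E2 s).map (C : P[X] →+* P[X][X]) := by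
    refine sup_le ?_ ?_
    · exact Ideal.map_mono bot_le
    · rw [Ideal.span_singleton_le_iff_mem]
      have h1 : (C (C E1) : P[X][X]) ∈
          (pid (Ideal.span {E1}) E2 s).map (C : P[X] →+* P[X][X]) := Ideal.mem_map_of_mem C hE1
      have h2 : (C (pel E2 s) : P[X][X]) ∈
          (pid (Ideal.span {E1}) E2 s).map (C : P[X] →+* P[X][X]) := Ideal.mem_map_of_mem C hpi
      have h3 : pel (C E1) (-pel E2 s) = C (C E1) * X + C (pel E2 s) := by
        unfold pel
        rw [map_neg, sub_neg_eq_add]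
      rw [h3]
      exact Ideal.add_mem _ (Ideal.mul_mem_right _ _ h1) h2
  have hmono : ∀ (M : Type) [AddCommGroup M] [Module P[X][X] M],
      kil ((⊥ : Ideal P[X]).map (C : P[X] →+* P[X][X]) ⊔
        Ideal.span {C (C E1), C (-pel E2 s)}) M →
      kil ((pid (Ideal.span {E1}) E2 s).map (C : P[X] →+* P[X][X])) M := by
    intro M _ _ hM
    exact kil_mono hle hM
  obtain ⟨χ5, h5i, h5ii⟩ := hPENC P[X] ⊥ (C E1) (-pel E2 s) Λ (zAF P[X] (kil ⊥) Λ)
    (ψE.mono hmono) (by
      intro N _ _ hf _ hN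
      have hCk : ψE.f (Ck (C (-pel E2 s) : P[X][X]) (PolynomialModule P[X] N)) =
          χ4.f (Ck (pel E2 s) N) := by
        obtain ⟨e1⟩ := (hCKP P[X] (-pel E2 s) N).1
        obtain ⟨e2⟩ := (hCKN P[X] (pel E2 s) N).1
        have hk1 : kil (pid (Ideal.span {E1}) E2 s) (Ck (-pel E2 s) N) :=
          (gd_kil _).inj _ _ e2.toLinearMap e2.injective (hkC N hN)
        rw [ψE.equiv (gd_kil _) e1 (hpf _ (hfC _ N hf)) (hpk _ _ hk1),
          hψE _ (hfC _ N hf) hk1, χ4.equiv (gd_kil _) e2 (hfC _ N hf) (hkC N hN)]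
      have hKn : ψE.f (Kn (C (-pel E2 s) : P[X][X]) (PolynomialModule P[X] N)) =
          χ4.f (Kn (pel E2 s) N) := by
        obtain ⟨e1⟩ := (hCKP P[X] (-pel E2 s) N).2
        obtain ⟨e2⟩ := (hCKN P[X] (pel E2 s) N).2
        have hk1 : kil (pid (Ideal.span {E1}) E2 s) (Kn (-pel E2 s) N) :=
          (gd_kil _).inj _ _ e2.toLinearMap e2.injective (hkK N hN)
        rw [ψE.equiv (gd_kil _) e1 (hpf _ (hfK _ N hf)) (hpk _ _ hk1),
          hψE _ (hfK _ N hf) hk1, χ4.equiv (gd_kil _) e2 (hfK _ N hf) (hkK N hN)]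
      change (0 : Λ) = ψE.f _ - ψE.f _
      rw [hCk, hKn, hdif N hf hN, sub_self])
  refine ⟨χ5, ?_, ?_⟩
  · intro M _ _ hf hM
    have hk := hpk M _ hM
    rw [h5i (PolynomialModule P[X] M) (hpf M hf) (kil_mono hle2 hk)
      (fun y => hk _ (Ideal.mem_map_of_mem C hE1) y)]
    exact hψE M hf hM
  · have h := h5ii (P[X] ⧸ (⊥ : Ideal P[X])) inferInstance (kil_quot ⊥)
    obtain ⟨⟨e⟩, hs⟩ := hPMP P[X] ⊥ (pel (C E1) (-pel E2 s))
    have hs' := hs (by
      intro r hr
      rw [Ideal.map_bot, Ideal.mem_bot] at hr ⊢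
      exact hreg r hr)
    have h1 : χ5.f (Kn (pel (C E1) (-pel E2 s)) (PolynomialModule P[X] (P[X] ⧸ (⊥ : Ideal P[X])))) =
        0 := χ5.of_subsingleton (gd_kil _) _
    have h2 : χ5.f (Ck (pel (C E1) (-pel E2 s)) (PolynomialModule P[X] (P[X] ⧸ (⊥ : Ideal P[X])))) =
        χ5.f (P[X][X] ⧸ pid ⊥ (C E1) (-pel E2 s)) :=
      χ5.equiv (gd_kil _) e (inferInstanceAs (Module.Finite P[X][X]
        (P[X][X] ⧸ pid ⊥ (C E1) (-pel E2 s)))) (kil_quot _)
    rw [h1, h2, sub_zero] at h
    exact h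

end Pool.Agent.Helper71.FX
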