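import Pool.Agent.Helper71.FX.M_MN
import Pool.Agent.Helper18.FX.M_BS
import Pool.Agent.Helper32.FX.M_LX
import Pool.Agent.Helper32.FX.M_DE
import Pool.Agent.Helper81.FX.M_LF
import Pool.Agent.Helper15.FX.M_UN
import Pool.Agent.Helper15.FX.M_PV
import Pool.Agent.Helper42.FX.M_GZ
import Pool.Agent.Helper5.FX.M_PB
import Pool.Agent.Helper37.FX.M_ZO
import Pool.Agent.Helper60.FX.M_LB
import Pool.Agent.Helper93.FX.M_LC
import Pool.Agent.Helper54.FX.M_LA
import Pool.Agent.Helper54.FX.M_LD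
import Pool.Agent.Helper54.FX.M_SB
import Pool.Agent.Helper89.FX.M_SA
import Pool.Agent.Helper29.FX.M_CT
import Pool.Agent.Helper67.FX.M_AB

/-!
# Project FX: the trace theorem and the flux condition
-/

noncomputable section

namespace Pool.Agent.Helper71.FX

theorem aBS : StBS := Pool.Agent.Helper18.FX.pBS
theorem aLX : StLX := Pool.Agent.Helper32.FX.pLX
theorem aLF : StLF := Pool.Agent.Helper81.FX.pLF
theorem aUN : StUN := pUN
theorem aPV : StPV := pPV aBS aLX aLF aUN
theorem aGZ : StGZ := Pool.Agent.Helper42.FX.pGZ aLF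
theorem aPB : StPB := Pool.Agent.Helper5.FX.pPB
theorem aZO : StZO := Pool.Agent.Helper37.FX.pZO
theorem aDE : StDE := Pool.Agent.Helper32.FX.pDE
theorem aLA : StLA := Pool.Agent.Helper54.FX.pLA aLX aLF
theorem aLB : StLB := Pool.Agent.Helper60.FX.pLB aBS aLX
theorem aLC : StLC := Pool.Agent.Helper93.FX.pLC aPB aZO aDE aLF
theorem aLD : StLD := Pool.Agent.Helper54.FX.pLD aLA aLB aLC
theorem aSA : StSA := Pool.Agent.Helper89.FX.pSA
theorem aSB : StSB := Pool.Agent.Helper54.FX.pSB aBS aLX aLF aSA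
theorem aCT : StCT := Pool.Agent.Helper29.FX.pCT
theorem aAB : StAB := Pool.Agent.Helper67.FX.pAB
theorem aAX : StAX := pAX aBS aLX
theorem aSY : StSY := pSY aLF aAX aGZ
theorem aSU : StSU := pSU aPV
theorem aMN : StMN := pMN aSY aSU aLD aSB aCT aAB

end Pool.Agent.Helper71.FX
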