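import Pool.Agent.Helper59.Wav.Nec

/-!
# Project FX (MP_d629b1_an): definitions
-/

open MeasureTheory
open scoped FourierTransform RealInnerProductSpace Matrix ComplexConjugate

noncomputable section

namespace Pool.Agent.Helper71.FX

open Wav

/-- The indices of the affine system: generator, scale, position. -/
abbrev Ix (n L : ℕ) := Fin L × ℤ × (Fin n → ℤ)

variable {n L : ℕ}

/-- The standing hypotheses. -/
structure Good (N : ℝ) (A : Matrix (Fin n) (Fin n) ℝ) (ψ : Fin L → E n → ℂ) : Prop where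
  exp : Expansive A
  big : (n : ℝ) < N
  big' : (n : ℝ) / 2 + 1 < N
  loc : ∀ l, WellLocalized N (ψ l)
  on : IsONWavelet A ψ

/-- The functions of the affine system. -/
def aff (A : Matrix (Fin n) (Fin n) ℝ) (ψ : Fin L → E n → ℂ) (p : Ix n L) : E n → ℂ :=
  affine A (ψ p.1) p.2.1 p.2.2

/-- Their Fourier transforms. -/
def fa (A : Matrix (Fin n) (Fin n) ℝ) (ψ : Fin L → E n → ℂ) (p : Ix n L) : E n → ℂ :=
  faff A (𝓕 (ψ p.1)) p.2.1 p.2.2

/-- The centre of a function of the affine system. -/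
def ctr (A : Matrix (Fin n) (Fin n) ℝ) (p : Ix n L) : E n := act (A ^ (-p.2.1)) (ivec p.2.2)

/-- The coefficient of `⟨w, x - ctr p⟩ aff p`. -/
def ax (A : Matrix (Fin n) (Fin n) ℝ) (ψ : Fin L → E n → ℂ) (p q : Ix n L) (w : E n) : ℂ :=
  ∫ x, conj (((⟪w, x - ctr A p⟫ : ℝ) : ℂ) * aff A ψ p x) * aff A ψ q x

/-- The coefficient of `⟨w, ξ⟩ fa p`. -/
def gy (A : Matrix (Fin n) (Fin n) ℝ) (ψ : Fin L → E n → ℂ) (p q : Ix n L) (w : E n) : ℂ :=
  ∫ ξ, conj (fa A ψ q ξ) * (((⟪w, ξ⟫ : ℝ) : ℂ) * fa A ψ p ξ)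

/-- `|det A|^(-j) B^j S B^(-j)`, `B` the transpose of `A`. -/
def Sj (A S : Matrix (Fin n) (Fin n) ℝ) (j : ℤ) : Matrix (Fin n) (Fin n) ℝ :=
  (|A.det| ^ (-j)) • (Aᵀ ^ j * S * Aᵀ ^ (-j))

/-- The matrices `Sj` agree on the common vectors of the lattices. -/
def Compat (A S : Matrix (Fin n) (Fin n) ℝ) : Prop :=
  ∀ (i j : ℤ) (x : E n), x ∈ WavN.Lat A i → x ∈ WavN.Lat A j →
    act (Sj A S i) x = act (Sj A S j) x

/-- The standard basis. -/
def ek (k : Fin n) : E n := EuclideanSpace.single k (1 : ℝ)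

/-- The coefficient of the pair `p, q`. -/
def tt (A S : Matrix (Fin n) (Fin n) ℝ) (ψ : Fin L → E n → ℂ) (p q : Ix n L) : ℂ :=
  ∑ k, ax A ψ p q (ek k) * gy A ψ p q (act (Sj A S p.2.1)ᵀ (ek k))

/-- The coefficients in the coordinates of scale `0`. -/
def axd (A : Matrix (Fin n) (Fin n) ℝ) (ψ : Fin L → E n → ℂ) (p q : Ix n L) (k : Fin n) : ℂ :=
  ∫ x, conj ((((act (A ^ p.2.1) x - ivec p.2.2).ofLp k : ℝ) : ℂ) * aff A ψ p x) * aff A ψ q x

/-- The coefficients in the coordinates of scale `0`. -/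
def gyd (A : Matrix (Fin n) (Fin n) ℝ) (ψ : Fin L → E n → ℂ) (p q : Ix n L) (k : Fin n) : ℂ :=
  ∫ ξ, conj (fa A ψ q ξ) * ((((act (Aᵀ ^ (-p.2.1)) ξ).ofLp k : ℝ) : ℂ) * fa A ψ p ξ)

/-- The flux condition: the identity matrix is a finite sum of matrices
`Q - |det A|^(-d) B^(-d) Q B^d`, where `d ≥ 1`, `B` is the transpose of `A` and all columns of `Q`
lie in the real span of `ℤⁿ ∩ B^d ℤⁿ`. -/
def Flux (A : Matrix (Fin n) (Fin n) ℝ) : Prop :=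
  ∃ (s : Finset ℤ) (Q : ℤ → Matrix (Fin n) (Fin n) ℝ),
    (∀ d ∈ s, 1 ≤ d ∧ ∀ x : E n, act (Q d) x ∈
      Submodule.span ℝ {y : E n | y ∈ WavN.Lat A 0 ∧ y ∈ WavN.Lat A d}) ∧
    ∑ d ∈ s, (Q d - (|A.det| ^ (-d)) • (Aᵀ ^ (-d) * Q d * Aᵀ ^ d)) = 1

end Pool.Agent.Helper71.FX
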