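import Pool.Agent.Helper71.FX.M_AX

/-!
# Project FX: assembly of the final statement from the trace theorem
-/

open MeasureTheory Filter Topology
open scoped FourierTransform RealInnerProductSpace Matrix ComplexConjugate ENNReal

noncomputable section

namespace Pool.Agent.Helper71.FX

open Wav

variable {n : ℕ}

/-- The flux condition in dimension one follows from the crossing condition. -/
lemma flux_one {A : Matrix (Fin 1) (Fin 1) ℝ} (hA : Expansive A)
    (h : Submodule.span ℝ (WavN.Common A {i : ℤ | i ≤ 0}) = ⊤) : Flux A := by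
  have hdet : A.det ≠ 0 := expansive_det hA
  have hu : IsUnit (Aᵀ).det := isUnit_iff_ne_zero.2 (by rwa [Matrix.det_transpose])
  -- the determinant has absolute value greater than one
  have hD : 1 < |A.det| := by
    have h1 : (algebraMap ℝ ℂ (A 0 0)) ∈ spectrum ℂ (A.map (algebraMap ℝ ℂ)) := by
      rw [spectrum.mem_iff]
      intro hun
      have h2 : (algebraMap ℂ (Matrix (Fin 1) (Fin 1) ℂ) (algebraMap ℝ ℂ (A 0 0)) -
          A.map (algebraMap ℝ ℂ)) = 0 := by
        ext i j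
        fin_cases i; fin_cases j
        simp [Matrix.algebraMap_matrix_apply]
      rw [h2] at hun
      exact not_isUnit_zero hun
    have h3 := hA _ h1
    have h4 : A.det = A 0 0 := by simp
    rw [h4]
    simpa using h3
  obtain ⟨x, hx, hx0⟩ : ∃ x ∈ WavN.Common A {i : ℤ | i ≤ 0}, x ≠ 0 := by
    by_contra hcon
    push Not at hcon
    have h1 : Submodule.span ℝ (WavN.Common A {i : ℤ | i ≤ 0}) = ⊥ := by
      rw [Submodule.span_eq_bot]
      exact hcon
    rw [h1] at h
    have h2 : (ek 0 : E 1) ∈ (⊥ : Submodule ℝ (E 1)) := by rw [h]; exact Submodule.mem_top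
    rw [Submodule.mem_bot] at h2
    have h3 := congrArg (fun y : E 1 => y.ofLp 0) h2
    simp [ek] at h3
  obtain ⟨i, hi, j, hj, hxi, hxj⟩ := hx
  simp only [Set.mem_ofPred_eq, not_le] at hi hj
  set d : ℤ := j - i with hd
  have hd1 : 1 ≤ d := by omega
  set y := act (Aᵀ ^ (-i)) x with hy
  have hzu : (Aᵀ ^ (-i)).det ≠ 0 := (hu.det_zpow (-i)).ne_zero
  have hy0 : y ≠ 0 := by
    intro h0
    apply hx0
    apply act_inj hzu
    rw [← hy, h0, cf_act_zero]
  have hyl : y ∈ WavN.Lat A 0 := by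
    obtain ⟨p, hp⟩ := hxi
    refine ⟨p, ?_⟩
    simp only at hp ⊢
    rw [hy, ← hp, ← act_mul, Matrix.zpow_neg_mul_zpow_self _ hu, zpow_zero]
  have hyd : y ∈ WavN.Lat A d := by
    obtain ⟨p, hp⟩ := hxj
    refine ⟨p, ?_⟩
    simp only at hp ⊢
    rw [hy, ← hp, ← act_mul, ← Matrix.zpow_add hu]
    congr 2
    omega
  have hspan : ∀ z : E 1, z ∈ Submodule.span ℝ
      {y : E 1 | y ∈ WavN.Lat A 0 ∧ y ∈ WavN.Lat A d} := by
    intro z
    have hy1 : y.ofLp 0 ≠ 0 := by
      intro h0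
      apply hy0
      ext a
      fin_cases a
      simpa using h0
    have e1 : z = (z.ofLp 0 / y.ofLp 0) • y := by
      ext a
      fin_cases a
      simp only [Fin.zero_eta, PiLp.smul_apply, smul_eq_mul]
      field_simp
    rw [e1]
    exact Submodule.smul_mem _ _ (Submodule.subset_span ⟨hyl, hyd⟩)
  have hpow : |A.det| ^ (-d) < 1 := by
    rw [zpow_neg]
    apply inv_lt_one_of_one_lt₀
    exact one_lt_zpow₀ hD (by omega)
  refine ⟨{d}, fun _ => (1 - |A.det| ^ (-d))⁻¹ • (1 : Matrix (Fin 1) (Fin 1) ℝ), ?_, ?_⟩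
  · intro e he
    rw [Finset.mem_singleton.1 he]
    exact ⟨hd1, fun x => hspan _⟩
  · rw [Finset.sum_singleton, Matrix.mul_smul, Matrix.mul_one, Matrix.smul_mul,
      Matrix.zpow_neg_mul_zpow_self _ hu, smul_smul, ← sub_smul]
    have h5 : (1 - |A.det| ^ (-d)) ≠ 0 := by
      have : 0 < 1 - |A.det| ^ (-d) := by linarith
      exact this.ne'
    have h6 : (1 - |A.det| ^ (-d))⁻¹ - |A.det| ^ (-d) * (1 - |A.det| ^ (-d))⁻¹ = 1 := by
      field_simp
    rw [h6, one_smul]

/-- The flux condition, all dimensions. -/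
theorem flux_all (hMN : StMN) {n : ℕ} {A : Matrix (Fin n) (Fin n) ℝ} (hA : Expansive A) {N : ℝ}
    (hN : (n : ℝ) < N) (hW : WavN.HasWavelet N A) : Flux A := by
  have hdet : A.det ≠ 0 := expansive_det hA
  rcases Nat.lt_or_ge n 2 with hn | hn
  · interval_cases n
    · exact ⟨∅, fun _ => 0, by simp, Subsingleton.elim _ _⟩
    · apply flux_one hA
      exact WavN.span_top hA hN hW {i : ℤ | i ≤ 0} ⟨0, by simp⟩ ⟨0, fun i hi => hi⟩
  · obtain ⟨L, ψ, hψ, hON⟩ := hW
    have hG : Good N A ψ := by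
      refine ⟨hA, hN, ?_, fun l => WavN.wellLocalized_of (hψ l),
        (Pool.Agent.Helper54.WavS.isONWavelet_iff _ _).1 hON⟩
      have h2 : (2 : ℝ) ≤ n := by exact_mod_cast hn
      linarith
    exact pDU n A hdet fun S hS => hMN n L N A S ψ hG hS

theorem final (hMN : StMN) (n : ℕ) (A : Matrix (Fin n) (Fin n) ℝ) (hA : Expansive A) (N : ℝ)
    (hN : (n : ℝ) < N) (hW : WavN.HasWavelet N A) :
    Flux A ∧
      (∀ F : Set ℤ, F.Nonempty → BddAbove F → Submodule.span ℝ (WavN.Common A F) = ⊤) ∧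
      (2 ≤ n → AddSubgroup.closure (WavN.Exps A) = ⊤) ∧
      (0 < n → ∀ (h : E n) (c : Fin n → ℤ), Function.Injective c →
        (∀ i, act (Aᵀ ^ c i) h ∈ WavN.Lat A 0) →
        LinearIndependent ℝ (fun i => act (Aᵀ ^ c i) h) →
        ∃ P : Polynomial ℚ, P ≠ 0 ∧ Polynomial.aeval A P = 0) := by
  have hF := flux_all hMN hA hN hW
  exact ⟨hF, fun F hF1 hFb => WavN.span_top hA hN hW F hF1 hFb,
    fun hn => WavN.exps_closure hn hA hN hW,
    fun hn h c hc h1 h2 => pCF n A hn (expansive_det hA) hF h c hc h1 h2⟩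

end Pool.Agent.Helper71.FX
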