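import Pool.Agent.Helper87.FX.StB

set_option autoImplicit false

namespace Pool.Agent.Helper71.FX

open Pool.Agent.Helper87.FX
open Set Topology Metric Filter
open scoped ContDiff

theorem hAMB : StAMB := by
  intro E V W _ _ _ _ _ _ X X' e Ψ Φ hΨ hΦ h1 h2 hX he
  have hne : (∞ : WithTop ℕ∞) ≠ 0 := by simp
  have hΨd : Differentiable ℝ Ψ := hΨ.differentiable hne
  have hΦd : Differentiable ℝ Φ := hΦ.differentiable hne
  have hed : Differentiable ℝ e := he.sm.differentiable hne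
  have hinj : ∀ v, Function.Injective (fderiv ℝ Ψ v) := by
    intro v
    have h : fderiv ℝ (Φ ∘ Ψ) v = (fderiv ℝ Φ (Ψ v)).comp (fderiv ℝ Ψ v) :=
      fderiv_comp v (hΦd (Ψ v)) (hΨd v)
    have h' : (Φ ∘ Ψ) = id := funext h1
    rw [h', fderiv_id] at h
    intro a b hab
    have ha : a = fderiv ℝ Φ (Ψ v) (fderiv ℝ Ψ v a) := by
      have := congrArg (fun L : V →L[ℝ] V => L a) h
      simpa using this
    have hb : b = fderiv ℝ Φ (Ψ v) (fderiv ℝ Ψ v b) := by
      have := congrArg (fun L : V →L[ℝ] V => L b) h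
      simpa using this
    rw [ha, hb, hab]
  let Θ : V ≃ₜ W :=
    { toFun := Ψ
      invFun := Φ
      left_inv := h1
      right_inv := h2
      continuous_toFun := hΨ.continuous
      continuous_invFun := hΦ.continuous }
  refine ⟨hΨ.comp he.sm, ?_, ?_, ?_, ?_⟩
  · intro x
    have h : fderiv ℝ (Ψ ∘ e) x = (fderiv ℝ Ψ (e x)).comp (fderiv ℝ e x) :=
      fderiv_comp x (hΨd (e x)) (hed x)
    have h3 : (fun x => Ψ (e x)) = Ψ ∘ e := rfl
    rw [h3, h]
    intro a b hab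
    exact he.imm x (hinj (e x) hab)
  · exact Θ.isEmbedding.comp he.emb
  · rintro w ⟨x, rfl⟩
    exact (hX _).1 (he.sub ⟨x, rfl⟩)
  · obtain ⟨O, hO, hr⟩ := he.opn
    refine ⟨Φ ⁻¹' O, hO.preimage hΦ.continuous, ?_⟩
    ext w
    constructor
    · rintro ⟨x, rfl⟩
      have hx : e x ∈ X ∩ O := hr ▸ ⟨x, rfl⟩
      refine ⟨(hX _).1 hx.1, ?_⟩
      change Φ (Ψ (e x)) ∈ O
      rw [h1]
      exact hx.2
    · rintro ⟨hw, hwO⟩
      have hv : Φ w ∈ X ∩ O := ⟨(hX _).2 (by rw [h2]; exact hw), hwO⟩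
      rw [← hr] at hv
      obtain ⟨x, hx⟩ := hv
      exact ⟨x, by show Ψ (e x) = w; rw [hx, h2]⟩

end Pool.Agent.Helper71.FX
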