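import Pool.Agent.Helper71.FX.M_SU

/-!
# Project FX: modules AX and SY
-/

open MeasureTheory Filter Topology
open scoped FourierTransform RealInnerProductSpace Matrix ComplexConjugate ENNReal

noncomputable section

namespace Pool.Agent.Helper71.FX

open Wav

variable {n : ℕ}

lemma ax_aff_memLp (hBS : StBS) {n L : ℕ} {N : ℝ} {A : Matrix (Fin n) (Fin n) ℝ}
    {ψ : Fin L → E n → ℂ} (hG : Good N A ψ) (p : Ix n L) :
    MemLp (aff A ψ p) 2 (volume : Measure (E n)) := by
  obtain ⟨b, hb, _⟩ := hBS n L N A ψ hG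
  exact (memLp_congr_ae (hb p)).1 (Lp.memLp _)

lemma ax_integrable {n : ℕ} {f g : E n → ℂ} (hf : MemLp f 2 (volume : Measure (E n)))
    (hg : MemLp g 2 (volume : Measure (E n))) :
    Integrable (fun x => conj (f x) * g x) (volume : Measure (E n)) := by
  have h1 : MemLp (fun x => conj (f x)) 2 (volume : Measure (E n)) := hf.star
  have := MemLp.integrable_mul h1 hg
  exact this

theorem pAX (hBS : StBS) (hLX : StLX) : StAX := by
  intro n L N A ψ hG p q w hpq
  obtain ⟨b, hb, _⟩ := hBS n L N A ψ hG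
  have hp := ax_aff_memLp hBS hG p
  have hq := ax_aff_memLp hBS hG q
  have h0 : ∫ x, conj (aff A ψ p x) * aff A ψ q x = 0 := N2Aux.basis_orth b hpq (hb p) (hb q)
  have i1 := ax_integrable hp (hLX n L N A ψ hG q w (ctr A q))
  have i2 := ax_integrable hp hq
  unfold ax
  rw [← integral_conj]
  have e1 : ∀ x : E n, conj (((⟪w, x - ctr A p⟫ : ℝ) : ℂ) * aff A ψ p x) * aff A ψ q x =
      conj (aff A ψ p x) * (((⟪w, x - ctr A q⟫ : ℝ) : ℂ) * aff A ψ q x) +
      ((⟪w, ctr A q - ctr A p⟫ : ℝ) : ℂ) * (conj (aff A ψ p x) * aff A ψ q x) := by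
    intro x
    have e2 : ⟪w, x - ctr A p⟫ = ⟪w, x - ctr A q⟫ + ⟪w, ctr A q - ctr A p⟫ := by
      rw [← inner_add_right]
      congr 1
      abel
    rw [e2, map_mul, Complex.conj_ofReal]
    push_cast
    ring
  have e3 : ∀ x : E n, conj (conj (((⟪w, x - ctr A q⟫ : ℝ) : ℂ) * aff A ψ q x) * aff A ψ p x) =
      conj (aff A ψ p x) * (((⟪w, x - ctr A q⟫ : ℝ) : ℂ) * aff A ψ q x) := by
    intro x
    rw [map_mul, Complex.conj_conj]
    ring
  simp only [e1, e3]
  rw [integral_add i1 (i2.const_mul _), integral_const_mul, h0, mul_zero, add_zero]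

/-- `gy` is conjugate symmetric. -/
lemma gy_symm {n L : ℕ} (A : Matrix (Fin n) (Fin n) ℝ) (ψ : Fin L → E n → ℂ) (p q : Ix n L)
    (w : E n) : gy A ψ p q w = conj (gy A ψ q p w) := by
  unfold gy
  rw [← integral_conj]
  congr 1
  funext ξ
  rw [map_mul, map_mul, Complex.conj_conj, Complex.conj_ofReal]
  ring

lemma gy_sub (hLF : StLF) {n L : ℕ} {N : ℝ} {A : Matrix (Fin n) (Fin n) ℝ}
    {ψ : Fin L → E n → ℂ} (hG : Good N A ψ) (p q : Ix n L) (w w' : E n) :
    gy A ψ p q (w - w') = gy A ψ p q w - gy A ψ p q w' := by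
  have hL := hLF n L N A ψ hG
  unfold gy
  rw [← integral_sub (ax_integrable (hL.2 q) (hL.1 p w)) (ax_integrable (hL.2 q) (hL.1 p w'))]
  congr 1
  funext ξ
  rw [inner_sub_left]
  push_cast
  ring

theorem pSY (hLF : StLF) (hAX : StAX) (hGZ : StGZ) : StSY := by
  intro n L N A S ψ hG hC p q
  by_cases hpq : p = q
  · subst hpq
    have h1 : ∀ w : E n, (ax A ψ p p w).im = 0 := by
      intro w
      have e1 : ax A ψ p p w =
          ((∫ x, ⟪w, x - ctr A p⟫ * Complex.normSq (aff A ψ p x) : ℝ) : ℂ) := by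
        unfold ax
        rw [← integral_complex_ofReal]
        congr 1
        funext x
        rw [map_mul, Complex.conj_ofReal, mul_assoc, mul_comm (conj (aff A ψ p x)),
          Complex.mul_conj]
        push_cast
        ring
      rw [e1, Complex.ofReal_im]
    have h2 : ∀ w : E n, (gy A ψ p p w).im = 0 := by
      intro w
      have e1 : gy A ψ p p w =
          ((∫ ξ, ⟪w, ξ⟫ * Complex.normSq (fa A ψ p ξ) : ℝ) : ℂ) := by
        unfold gy
        rw [← integral_complex_ofReal]
        congr 1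
        funext x
        rw [mul_left_comm, mul_comm (conj (fa A ψ p x)), Complex.mul_conj]
        push_cast
        ring
      rw [e1, Complex.ofReal_im]
    have h3 : (tt A S ψ p p).im = 0 := by
      unfold tt
      rw [Complex.im_sum]
      apply Finset.sum_eq_zero
      intro k _
      rw [Complex.mul_im, h1, h2]
      ring
    rw [h3, neg_zero]
  · have h1 : ∀ k : Fin n, gy A ψ p q (act (Sj A S p.2.1)ᵀ (ek k)) =
        gy A ψ p q (act (Sj A S q.2.1)ᵀ (ek k)) := by
      intro k
      by_cases hij : p.2.1 = q.2.1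
      · rw [hij]
      · rw [← sub_eq_zero, ← gy_sub hLF hG]
        apply hGZ n L N A ψ hG p q _ hij
        intro y hy1 hy2
        rw [inner_sub_left, inner_act, inner_act, Matrix.transpose_transpose,
          Matrix.transpose_transpose, hC _ _ y hy1 hy2, sub_self]
    have h2 : tt A S ψ p q = conj (tt A S ψ q p) := by
      unfold tt
      rw [map_sum]
      apply Finset.sum_congr rfl
      intro k _
      rw [h1, map_mul, ← hAX n L N A ψ hG p q _ hpq, ← gy_symm]
    rw [h2, Complex.conj_im]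

end Pool.Agent.Helper71.FX
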