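import Pool.Agent.Helper71.FX.St

/-!
# Project FX: module CF, the free families
-/

open MeasureTheory Filter Topology
open scoped FourierTransform RealInnerProductSpace Matrix ComplexConjugate ENNReal

noncomputable section

namespace Pool.Agent.Helper71.FX

open Wav

variable {n : ℕ}

lemma cf_act_smul (M : Matrix (Fin n) (Fin n) ℝ) (c : ℝ) (x : E n) :
    act M (c • x) = c • act M x := by
  rw [act_eq]; exact map_smul _ _ _

lemma cf_act_zsmul (M : Matrix (Fin n) (Fin n) ℝ) (c : ℤ) (x : E n) :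
    act M (c • x) = c • act M x := by
  rw [act_eq]; exact map_zsmul _ _ _

lemma cf_smul_act (M : Matrix (Fin n) (Fin n) ℝ) (c : ℝ) (x : E n) :
    act (c • M) x = c • act M x := by
  simp [act, Matrix.smul_mulVec]

lemma cf_act_zero (M : Matrix (Fin n) (Fin n) ℝ) : act M (0 : E n) = 0 := by
  rw [act_eq]; exact map_zero _

lemma cf_act_sum {ι : Type*} (s : Finset ι) (M : Matrix (Fin n) (Fin n) ℝ) (f : ι → E n) :
    act M (∑ i ∈ s, f i) = ∑ i ∈ s, act M (f i) := by
  rw [act_eq]; exact map_sum _ _ _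

lemma cf_sub_act (M K : Matrix (Fin n) (Fin n) ℝ) (x : E n) :
    act (M - K) x = act M x - act K x := by
  simp [act, Matrix.sub_mulVec]

/-- A matrix which kills a spanning family is zero. -/
lemma cf_zero_of_kill {ι : Type*} {w : ι → E n} (hs : Submodule.span ℝ (Set.range w) = ⊤)
    {M : Matrix (Fin n) (Fin n) ℝ} (h : ∀ i, act M (w i) = 0) : M = 0 := by
  have h1 : (Matrix.toEuclideanLin M : E n →ₗ[ℝ] E n) = 0 := by
    apply LinearMap.ext_on_range hs
    intro i
    have := h i
    rw [act_eq] at this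
    simpa using this
  have h2 := (Matrix.toEuclideanLin (m := Fin n) (n := Fin n) (𝕜 := ℝ)).injective
    (a₁ := M) (a₂ := 0) (by rw [h1, map_zero])
  exact h2

lemma cf_zero_of_all {M : Matrix (Fin n) (Fin n) ℝ} (h : ∀ x : E n, act M x = 0) : M = 0 :=
  cf_zero_of_kill (w := fun x : E n => x) (by simp) h

/-- The trace of a compatible matrix vanishes under the flux condition. -/
theorem flux_trace {A S : Matrix (Fin n) (Fin n) ℝ} (hA : A.det ≠ 0) (hF : Flux A)
    (hS : ∀ d : ℤ, 1 ≤ d → ∀ x : E n, x ∈ WavN.Lat A 0 → x ∈ WavN.Lat A d →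
      act S x = act (Sj A S d) x) : S.trace = 0 := by
  obtain ⟨s, Q, hQ, h1⟩ := hF
  have hu : IsUnit (Aᵀ).det := isUnit_iff_ne_zero.2 (by rwa [Matrix.det_transpose])
  have key : ∀ d ∈ s, (S * (Q d - (|A.det| ^ (-d)) • (Aᵀ ^ (-d) * Q d * Aᵀ ^ d))).trace = 0 := by
    intro d hd
    have hz : (S - Sj A S d) * Q d = 0 := by
      apply cf_zero_of_all
      intro x
      rw [act_mul]
      have hx := (hQ d hd).2 x
      generalize act (Q d) x = y at hx ⊢
      induction hx using Submodule.span_induction with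
      | mem z hz =>
        rw [cf_sub_act, hS d (hQ d hd).1 z hz.1 hz.2, sub_self]
      | zero => exact cf_act_zero _
      | add a b _ _ ha hb => rw [act_add, ha, hb, add_zero]
      | smul c a _ ha => rw [cf_act_smul, ha, smul_zero]
    have e1 : (S * (Q d - (|A.det| ^ (-d)) • (Aᵀ ^ (-d) * Q d * Aᵀ ^ d))).trace =
        ((S - Sj A S d) * Q d).trace := by
      rw [Matrix.mul_sub, Matrix.trace_sub, Matrix.sub_mul, Matrix.trace_sub]
      congr 1
      rw [Matrix.mul_smul, Matrix.trace_smul, Sj, Matrix.smul_mul, Matrix.trace_smul]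
      congr 1
      have e3 : S * (Aᵀ ^ (-d) * Q d * Aᵀ ^ d) = (S * Aᵀ ^ (-d) * Q d) * Aᵀ ^ d := by
        simp only [Matrix.mul_assoc]
      have e4 : Aᵀ ^ d * S * Aᵀ ^ (-d) * Q d = Aᵀ ^ d * (S * Aᵀ ^ (-d) * Q d) := by
        simp only [Matrix.mul_assoc]
      rw [e3, e4, Matrix.trace_mul_comm]
    rw [e1, hz, Matrix.trace_zero]
  have e2 : S.trace = (S * ∑ d ∈ s, (Q d - (|A.det| ^ (-d)) •
      (Aᵀ ^ (-d) * Q d * Aᵀ ^ d))).trace := by rw [h1, Matrix.mul_one]
  rw [e2, Matrix.mul_sum, Matrix.trace_sum]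
  exact Finset.sum_eq_zero key

/-- If no nonzero rational polynomial kills `A`, the vectors `B^m h` are linearly independent. -/
lemma cf_indep {A : Matrix (Fin n) (Fin n) ℝ} (hA : A.det ≠ 0)
    (hP : ∀ P : Polynomial ℚ, P ≠ 0 → Polynomial.aeval A P ≠ 0) {h : E n} {c : Fin n → ℤ}
    (hs : Submodule.span ℝ (Set.range fun i => act (Aᵀ ^ c i) h) = ⊤)
    (g : ℤ →₀ ℤ) (hg : g.sum (fun m a => (a : ℝ) • act (Aᵀ ^ m) h) = 0) : g = 0 := by
  by_contra hne
  have hu : IsUnit (Aᵀ).det := isUnit_iff_ne_zero.2 (by rwa [Matrix.det_transpose])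
  obtain ⟨M, hM⟩ : ∃ M : ℤ, ∀ m ∈ g.support, 0 ≤ m + M := by
    obtain ⟨b, hb⟩ := g.support.bddBelow
    exact ⟨-b, fun m hm => by have := hb hm; linarith⟩
  set P : Polynomial ℚ := g.sum (fun m a => Polynomial.monomial (m + M).toNat (a : ℚ)) with hPd
  have hP0 : P ≠ 0 := by
    intro h0
    obtain ⟨m, hm⟩ : ∃ m, m ∈ g.support := by
      by_contra hcon
      push Not at hcon
      exact hne (Finsupp.support_eq_empty.1 (Finset.eq_empty_of_forall_notMem hcon))
    have h2 := congrArg (fun R : Polynomial ℚ => R.coeff (m + M).toNat) h0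
    simp only [Polynomial.coeff_zero] at h2
    rw [hPd, Finsupp.sum, Polynomial.finsetSum_coeff] at h2
    rw [Finset.sum_eq_single m] at h2
    · rw [Polynomial.coeff_monomial_same] at h2
      exact (Finsupp.mem_support_iff.1 hm) (by exact_mod_cast h2)
    · intro k hk hkm
      rw [Polynomial.coeff_monomial, if_neg]
      intro h3
      apply hkm
      have h4 := hM k hk
      have h5 := hM m hm
      omega
    · intro h3
      exact absurd hm h3
  apply hP P hP0
  have hker : act (Polynomial.aeval Aᵀ P) h = 0 := by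
    have e1 : Polynomial.aeval Aᵀ P = ∑ m ∈ g.support, ((g m : ℝ)) • (Aᵀ ^ M * Aᵀ ^ m) := by
      rw [hPd, Finsupp.sum, map_sum]
      apply Finset.sum_congr rfl
      intro m hm
      rw [Polynomial.aeval_monomial, ← Matrix.zpow_add hu.ne_zero.isUnit]
      have h4 := hM m hm
      have h6 : Aᵀ ^ (M + m) = Aᵀ ^ (m + M).toNat := by
        rw [← zpow_natCast]
        congr 1
        omega
      rw [h6]
      simp [Algebra.smul_def]
    rw [e1]
    have e2 : act (∑ m ∈ g.support, ((g m : ℝ)) • (Aᵀ ^ M * Aᵀ ^ m)) h =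
        act (Aᵀ ^ M) (g.sum (fun m a => (a : ℝ) • act (Aᵀ ^ m) h)) := by
      rw [Finsupp.sum, cf_act_sum]
      have e3 : ∀ (s : Finset ℤ) (f : ℤ → Matrix (Fin n) (Fin n) ℝ),
          act (∑ m ∈ s, f m) h = ∑ m ∈ s, act (f m) h := by
        intro s f
        induction s using Finset.induction_on with
        | empty => simp [act]
        | insert a s ha ih =>
          rw [Finset.sum_insert ha, Finset.sum_insert ha, ← ih]
          simp [act, Matrix.add_mulVec]
      rw [e3]
      apply Finset.sum_congr rfl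
      intro m _
      rw [cf_smul_act, act_mul, cf_act_smul]
    rw [e2, hg, cf_act_zero]
  have hz : Polynomial.aeval Aᵀ P = 0 := by
    apply cf_zero_of_kill hs
    intro i
    have hcomm : Polynomial.aeval Aᵀ P * Aᵀ ^ c i = Aᵀ ^ c i * Polynomial.aeval Aᵀ P := by
      have h1 : Commute (Aᵀ) (Polynomial.aeval Aᵀ P) := by
        have h2 := congrArg (Polynomial.aeval Aᵀ) (mul_comm Polynomial.X P)
        rw [map_mul, map_mul, Polynomial.aeval_X] at h2
        exact h2
      exact (Matrix.Commute.zpow_left h1 (c i)).symm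
    rw [← act_mul, hcomm, act_mul, hker, cf_act_zero]
  have hT : Polynomial.aeval A P = (Polynomial.aeval Aᵀ P)ᵀ := by
    rw [Polynomial.aeval_eq_sum_range, Polynomial.aeval_eq_sum_range, Matrix.transpose_sum]
    apply Finset.sum_congr rfl
    intro k _
    rw [Matrix.transpose_smul, Matrix.transpose_pow, Matrix.transpose_transpose]
  rw [hT, hz, Matrix.transpose_zero]

/-- The weighted value of a relation. -/
lemma cf_eq_of_finsupp {V : Type*} [AddCommGroup V] (F : ℤ → V) {s t : ℤ →₀ ℤ} (h : s = t) :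
    s.sum (fun m a => a • F m) = t.sum (fun m a => a • F m) := by rw [h]

lemma cf_sum_single {V : Type*} [AddCommGroup V] (F : ℤ → V) (a : Fin n → ℤ)
    (e : Fin n → ℤ) :
    (∑ i, Finsupp.single (e i) (a i) : ℤ →₀ ℤ).sum (fun m a => a • F m) = ∑ i, a i • F (e i) := by
  have h1 : ∀ f : ℤ →₀ ℤ, f.sum (fun m a => a • F m) = Finsupp.linearCombination ℤ F f :=
    fun f => rfl
  rw [h1, map_sum]
  apply Finset.sum_congr rfl
  intro i _
  rw [Finsupp.linearCombination_single]

theorem pCF : StCF := by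
  intro n A hn hA hF h c hc hint hli
  by_contra hcon
  push Not at hcon
  have hu : IsUnit (Aᵀ).det := isUnit_iff_ne_zero.2 (by rwa [Matrix.det_transpose])
  have hD : 0 < |A.det| := abs_pos.2 hA
  set w : Fin n → E n := fun i => act (Aᵀ ^ c i) h with hw
  have hcard : Fintype.card (Fin n) = Module.finrank ℝ (E n) := by simp
  have : Nonempty (Fin n) := ⟨⟨0, hn⟩⟩
  set bw : Module.Basis (Fin n) ℝ (E n) := basisOfLinearIndependentOfCardEqFinrank hli hcard
    with hbw
  have hs : Submodule.span ℝ (Set.range w) = ⊤ :=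
    hli.span_eq_top_of_card_eq_finrank' hcard
  -- the integer matrix
  have hint' : ∀ i, ∃ z : Fin n → ℤ, w i = ivec z := by
    intro i
    obtain ⟨z, hz⟩ := hint i
    refine ⟨z, ?_⟩
    simp only [zpow_zero] at hz
    rw [act_one] at hz
    exact hz.symm
  choose z hz using hint'
  set Z : Matrix (Fin n) (Fin n) ℤ := Matrix.of fun a i => z i a with hZ
  set W : Matrix (Fin n) (Fin n) ℝ := Z.map (fun t : ℤ => (t : ℝ)) with hWd
  have hWcol : ∀ i, act W (ek i) = w i := by
    intro i
    rw [hz i]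
    ext a
    simp [act, ek, ivec, hWd, hZ, Matrix.mulVec_single_one]
  have hWact : ∀ p : Fin n → ℤ, act W (ivec p) = ∑ i, p i • w i := by
    intro p
    have e1 : (ivec p : E n) = ∑ i, (p i : ℝ) • ek i := by
      ext a
      simp [ivec, ek, Finset.sum_apply, Pi.single_apply]
    rw [e1, cf_act_sum]
    apply Finset.sum_congr rfl
    intro i _
    rw [cf_act_smul, hWcol, Int.cast_smul_eq_zsmul]
  have hWdet : W.det ≠ 0 := by
    intro h0
    obtain ⟨v, hv0, hv⟩ := Matrix.exists_mulVec_eq_zero_iff.2 h0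
    have h2 : ∑ i, v i • w i = 0 := by
      have e1 : (WithLp.toLp 2 v : E n) = ∑ i, v i • ek i := by
        ext a
        simp [ek, Finset.sum_apply, Pi.single_apply]
      have e2 : act W (WithLp.toLp 2 v : E n) = 0 := by
        simp [act, hv]
      rw [e1, cf_act_sum] at e2
      rw [← e2]
      apply Finset.sum_congr rfl
      intro i _
      rw [cf_act_smul, hWcol]
    have h3 := Fintype.linearIndependent_iff.1 hli v h2
    exact hv0 (funext h3)
  have hWu : IsUnit W.det := isUnit_iff_ne_zero.2 hWdet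
  have hWZ : W.det = ((Z.det : ℤ) : ℝ) := by
    have := (Int.castRingHom ℝ).map_det Z
    rw [hWd]
    exact this.symm
  have hδ : Z.det ≠ 0 := by
    intro h0
    apply hWdet
    rw [hWZ, h0]; simp
  have hexp : ∀ p : Fin n → ℤ, ∃ a : Fin n → ℤ, Z.det • (ivec p : E n) = ∑ i, a i • w i := by
    intro p
    refine ⟨Z.adjugate *ᵥ p, ?_⟩
    rw [← hWact]
    have e1 : Z *ᵥ (Z.adjugate *ᵥ p) = Z.det • p := by
      rw [Matrix.mulVec_mulVec, Matrix.mul_adjugate, Matrix.smul_mulVec, Matrix.one_mulVec]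
    have e2 : ∀ q : Fin n → ℤ, act W (ivec q) = ivec (Z *ᵥ q) := by
      intro q
      ext a
      simp [act, ivec, hWd, Matrix.mulVec, dotProduct]
    rw [e2, e1]
    ext a
    simp [ivec]
  -- the matrix `S`
  set S : Matrix (Fin n) (Fin n) ℝ :=
    W * Matrix.diagonal (fun i => |A.det| ^ (-c i)) * W⁻¹ with hSd
  have hStr : 0 < S.trace := by
    rw [hSd, Matrix.trace_mul_comm, ← Matrix.mul_assoc, Matrix.nonsing_inv_mul _ hWu,
      Matrix.one_mul, Matrix.trace_diagonal]
    exact Finset.sum_pos (fun i _ => zpow_pos hD _) Finset.univ_nonempty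
  have hSw : ∀ i, act S (w i) = (|A.det| ^ (-c i)) • w i := by
    intro i
    rw [← hWcol i, hSd, act_mul, ← act_mul W⁻¹ W, Matrix.nonsing_inv_mul _ hWu, act_one,
      act_mul]
    have e1 : act (Matrix.diagonal (fun i => |A.det| ^ (-c i))) (ek i : E n) =
        (|A.det| ^ (-c i)) • ek i := by
      ext a
      simp only [act, ek, EuclideanSpace.single, Matrix.mulVec_diagonal, PiLp.smul_apply,
        smul_eq_mul]
      by_cases hai : a = i
      · subst hai; simp
      · simp [hai]
    rw [e1, cf_act_smul]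
  apply hStr.ne'
  refine flux_trace hA hF ?_
  rintro d hd x ⟨p, hp⟩ ⟨q, hq⟩
  simp only [zpow_zero] at hp
  rw [act_one] at hp
  simp only at hq
  obtain ⟨a, ha⟩ := hexp p
  obtain ⟨b, hb⟩ := hexp q
  -- the relation
  set v : ℤ → E n := fun m => act (Aᵀ ^ m) h with hv
  have hrel : (∑ i, Finsupp.single (c i) (a i) : ℤ →₀ ℤ) =
      ∑ i, Finsupp.single (d + c i) (b i) := by
    rw [← sub_eq_zero]
    apply cf_indep hA hcon (h := h) (c := c) hs
    have e0 : ∀ f : ℤ →₀ ℤ, f.sum (fun m a => (a : ℝ) • act (Aᵀ ^ m) h) =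
        Finsupp.linearCombination ℤ v f := by
      intro f
      rw [Finsupp.linearCombination_apply]
      apply Finsupp.sum_congr
      intro m _
      rw [Int.cast_smul_eq_zsmul]
    rw [e0, map_sub, map_sum, map_sum]
    simp only [Finsupp.linearCombination_single]
    have e1 : ∑ i, a i • v (c i) = Z.det • x := by
      rw [← hp, ha]
    have e2 : ∑ i, b i • v (d + c i) = Z.det • x := by
      rw [← hq]
      rw [← cf_act_zsmul, hb, cf_act_sum]
      apply Finset.sum_congr rfl
      intro i _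
      rw [cf_act_zsmul, hw, ← act_mul, ← Matrix.zpow_add hu]
    rw [e1, e2, sub_self]
  have hF2 := cf_eq_of_finsupp (fun m => (|A.det| ^ (-m)) • v m) hrel
  rw [cf_sum_single, cf_sum_single] at hF2
  have hδ' : ((Z.det : ℤ) : ℝ) ≠ 0 := by exact_mod_cast hδ
  have h1 : ((Z.det : ℤ) : ℝ) • act S x = ∑ i, a i • ((|A.det| ^ (-c i)) • v (c i)) := by
    rw [← cf_act_smul, ← hp]
    have e1 : ((Z.det : ℤ) : ℝ) • (ivec p : E n) = ∑ i, a i • w i := by
      rw [← ha, Int.cast_smul_eq_zsmul]
    rw [e1, cf_act_sum]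
    apply Finset.sum_congr rfl
    intro i _
    rw [cf_act_zsmul, hSw]
  have h2 : ((Z.det : ℤ) : ℝ) • act (Sj A S d) x =
      ∑ i, b i • ((|A.det| ^ (-(d + c i))) • v (d + c i)) := by
    have e0 : act (Sj A S d) x = (|A.det| ^ (-d)) • act (Aᵀ ^ d) (act S (ivec q)) := by
      rw [Sj, cf_smul_act, act_mul, act_mul, ← hq, ← act_mul (Aᵀ ^ (-d)),
        Matrix.zpow_neg_mul_zpow_self _ hu, act_one]
    rw [e0, smul_comm, ← cf_act_smul (Aᵀ ^ d) ((Z.det : ℤ) : ℝ), ← cf_act_smul S]
    have e1 : ((Z.det : ℤ) : ℝ) • (ivec q : E n) = ∑ i, b i • w i := by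
      rw [← hb, Int.cast_smul_eq_zsmul]
    rw [e1, cf_act_sum, cf_act_sum, Finset.smul_sum]
    apply Finset.sum_congr rfl
    intro i _
    rw [cf_act_zsmul, hSw, cf_act_zsmul, cf_act_smul, hw, ← act_mul, ← Matrix.zpow_add hu, smul_comm _ (b i),
      smul_smul, ← zpow_add₀ hD.ne']
    congr 3
    ring
  have h3 : ((Z.det : ℤ) : ℝ) • act S x = ((Z.det : ℤ) : ℝ) • act (Sj A S d) x := by
    rw [h1, h2, hF2]
  exact (smul_right_injective (E n) hδ') h3

end Pool.Agent.Helper71.FX
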