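import Pool.Agent.Helper71.FX.M_CF

/-!
# Project FX: modules CP and DU
-/

open MeasureTheory Filter Topology
open scoped FourierTransform RealInnerProductSpace Matrix ComplexConjugate ENNReal

noncomputable section

namespace Pool.Agent.Helper71.FX

open Wav

variable {n : ℕ}

lemma cp_shift {A S : Matrix (Fin n) (Fin n) ℝ} (hA : A.det ≠ 0) (i j : ℤ) (x : E n) :
    act (Sj A S j) x =
      (|A.det| ^ (-i)) • act (Aᵀ ^ i) (act (Sj A S (j - i)) (act (Aᵀ ^ (-i)) x)) := by
  have hu : IsUnit (Aᵀ).det := isUnit_iff_ne_zero.2 (by rwa [Matrix.det_transpose])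
  have hD : 0 < |A.det| := abs_pos.2 hA
  rw [Sj, Sj, cf_smul_act, cf_smul_act, cf_act_smul, smul_smul, ← zpow_add₀ hD.ne', ← act_mul,
    ← act_mul]
  have e1 : Aᵀ ^ i * (Aᵀ ^ (j - i) * S * Aᵀ ^ (-(j - i))) * Aᵀ ^ (-i) =
      Aᵀ ^ j * S * Aᵀ ^ (-j) := by
    have e2 : Aᵀ ^ j = Aᵀ ^ i * Aᵀ ^ (j - i) := by
      rw [← Matrix.zpow_add hu]; congr 1; ring
    have e3 : Aᵀ ^ (-j) = Aᵀ ^ (-(j - i)) * Aᵀ ^ (-i) := by
      rw [← Matrix.zpow_add hu]; congr 1; ring
    rw [e2, e3]
    simp only [Matrix.mul_assoc]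
  rw [e1]
  congr 2
  ring

theorem pCP : StCP := by
  intro n A S hA h
  have hu : IsUnit (Aᵀ).det := isUnit_iff_ne_zero.2 (by rwa [Matrix.det_transpose])
  have key : ∀ i j : ℤ, i < j → ∀ x : E n, x ∈ WavN.Lat A i → x ∈ WavN.Lat A j →
      act (Sj A S i) x = act (Sj A S j) x := by
    intro i j hij x hxi hxj
    rw [cp_shift hA i i x, cp_shift hA i j x]
    congr 2
    set y := act (Aᵀ ^ (-i)) x with hy
    have hy0 : y ∈ WavN.Lat A 0 := by
      obtain ⟨p, hp⟩ := hxi
      refine ⟨p, ?_⟩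
      simp only at hp ⊢
      rw [hy, ← hp, ← act_mul, Matrix.zpow_neg_mul_zpow_self _ hu, zpow_zero]
    have hyd : y ∈ WavN.Lat A (j - i) := by
      obtain ⟨p, hp⟩ := hxj
      refine ⟨p, ?_⟩
      simp only at hp ⊢
      rw [hy, ← hp, ← act_mul, ← Matrix.zpow_add hu]
      congr 2
      ring
    rw [← h (j - i) (by omega) y hy0 hyd, sub_self]
    simp [Sj]
  intro i j x hxi hxj
  rcases lt_trichotomy i j with hij | hij | hij
  · exact key i j hij x hxi hxj
  · rw [hij]
  · exact (key j i hij x hxj hxi).symm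

/-- The linear map `Q ↦ Q - |det A|^(-d) B^(-d) Q B^d`. -/
def duT (A : Matrix (Fin n) (Fin n) ℝ) (d : ℤ) :
    Matrix (Fin n) (Fin n) ℝ →ₗ[ℝ] Matrix (Fin n) (Fin n) ℝ where
  toFun Q := Q - (|A.det| ^ (-d)) • (Aᵀ ^ (-d) * Q * Aᵀ ^ d)
  map_add' := by
    intro P Q
    rw [Matrix.mul_add, Matrix.add_mul, smul_add]
    abel
  map_smul' := by
    intro c Q
    simp only [RingHom.id_apply]
    rw [Matrix.mul_smul, Matrix.smul_mul, smul_sub, smul_comm]

lemma duT_apply (A : Matrix (Fin n) (Fin n) ℝ) (d : ℤ) (Q : Matrix (Fin n) (Fin n) ℝ) :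
    duT A d Q = Q - (|A.det| ^ (-d)) • (Aᵀ ^ (-d) * Q * Aᵀ ^ d) := rfl

lemma du_trace {A S : Matrix (Fin n) (Fin n) ℝ} (d : ℤ) (Q : Matrix (Fin n) (Fin n) ℝ) :
    (S * duT A d Q).trace = ((S - Sj A S d) * Q).trace := by
  rw [duT_apply, Matrix.mul_sub, Matrix.trace_sub, Matrix.sub_mul, Matrix.trace_sub]
  congr 1
  rw [Matrix.mul_smul, Matrix.trace_smul, Sj, Matrix.smul_mul, Matrix.trace_smul]
  congr 1
  have e3 : S * (Aᵀ ^ (-d) * Q * Aᵀ ^ d) = (S * Aᵀ ^ (-d) * Q) * Aᵀ ^ d := by
    simp only [Matrix.mul_assoc]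
  have e4 : Aᵀ ^ d * S * Aᵀ ^ (-d) * Q = Aᵀ ^ d * (S * Aᵀ ^ (-d) * Q) := by
    simp only [Matrix.mul_assoc]
  rw [e3, e4, Matrix.trace_mul_comm]

theorem pDU : StDU := by
  intro n A hA h
  set U : ℤ → Submodule ℝ (E n) := fun d =>
    Submodule.span ℝ {y : E n | y ∈ WavN.Lat A 0 ∧ y ∈ WavN.Lat A d} with hU
  set W : Submodule ℝ (Matrix (Fin n) (Fin n) ℝ) := Submodule.span ℝ
    {M | ∃ d : ℤ, 1 ≤ d ∧ ∃ Q : Matrix (Fin n) (Fin n) ℝ, (∀ x : E n, act Q x ∈ U d) ∧
      M = duT A d Q} with hW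
  have hform : ∀ M ∈ W, ∃ (s : Finset ℤ) (Q : ℤ → Matrix (Fin n) (Fin n) ℝ),
      (∀ d ∈ s, 1 ≤ d) ∧ (∀ d, d ∉ s → Q d = 0) ∧ (∀ d, ∀ x : E n, act (Q d) x ∈ U d) ∧
      ∑ d ∈ s, duT A d (Q d) = M := by
    intro M hM
    induction hM using Submodule.span_induction with
    | mem M hM =>
      obtain ⟨d, hd, Q, hQ, rfl⟩ := hM
      refine ⟨{d}, fun e => if e = d then Q else 0, ?_, ?_, ?_, ?_⟩
      · intro e he
        rw [Finset.mem_singleton.1 he]; exact hd
      · intro e he
        exact if_neg (by simpa using he)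
      · intro e x
        by_cases he : e = d
        · subst he
          simpa using hQ x
        · simp only [if_neg he]
          have : act (0 : Matrix (Fin n) (Fin n) ℝ) x = 0 := by simp [act]
          rw [this]; exact Submodule.zero_mem _
      · simp
    | zero =>
      refine ⟨∅, fun _ => 0, by simp, by simp, ?_, by simp⟩
      intro d x
      have : act (0 : Matrix (Fin n) (Fin n) ℝ) x = 0 := by simp [act]
      rw [this]; exact Submodule.zero_mem _
    | add M1 M2 _ _ h1 h2 =>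
      obtain ⟨s1, Q1, a1, b1, c1, d1⟩ := h1
      obtain ⟨s2, Q2, a2, b2, c2, d2⟩ := h2
      refine ⟨s1 ∪ s2, fun d => Q1 d + Q2 d, ?_, ?_, ?_, ?_⟩
      · intro d hd
        rcases Finset.mem_union.1 hd with hd | hd
        · exact a1 d hd
        · exact a2 d hd
      · intro d hd
        rw [Finset.mem_union, not_or] at hd
        simp only [b1 d hd.1, b2 d hd.2, add_zero]
      · intro d x
        have : act (Q1 d + Q2 d) x = act (Q1 d) x + act (Q2 d) x := by
          simp [act, Matrix.add_mulVec]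
        rw [this]
        exact Submodule.add_mem _ (c1 d x) (c2 d x)
      · simp only [map_add, Finset.sum_add_distrib]
        congr 1
        · rw [← d1]
          symm
          apply Finset.sum_subset Finset.subset_union_left
          intro d _ hd
          rw [b1 d hd, map_zero]
        · rw [← d2]
          symm
          apply Finset.sum_subset Finset.subset_union_right
          intro d _ hd
          rw [b2 d hd, map_zero]
    | smul c M _ h1 =>
      obtain ⟨s1, Q1, a1, b1, c1, d1⟩ := h1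
      refine ⟨s1, fun d => c • Q1 d, a1, ?_, ?_, ?_⟩
      · intro d hd
        simp only [b1 d hd, smul_zero]
      · intro d x
        rw [cf_smul_act]
        exact Submodule.smul_mem _ _ (c1 d x)
      · simp only [map_smul]
        rw [← Finset.smul_sum, d1]
  by_cases h1 : (1 : Matrix (Fin n) (Fin n) ℝ) ∈ W
  · obtain ⟨s, Q, a, _, c, d⟩ := hform 1 h1
    exact ⟨s, Q, fun e he => ⟨a e he, c e⟩, d⟩
  · exfalso
    obtain ⟨f, hf1, hfW⟩ := Submodule.exists_le_ker_of_notMem h1
    set S : Matrix (Fin n) (Fin n) ℝ := Matrix.of fun a b => f (Matrix.single b a 1) with hS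
    have hfS : ∀ M : Matrix (Fin n) (Fin n) ℝ, f M = (S * M).trace := by
      intro M
      conv_lhs => rw [Matrix.matrix_eq_sum_single M]
      rw [map_sum, Matrix.trace]
      simp only [Matrix.diag_apply, Matrix.mul_apply, map_sum]
      rw [Finset.sum_comm]
      apply Finset.sum_congr rfl
      intro a _
      apply Finset.sum_congr rfl
      intro b _
      have : Matrix.single b a (M b a) = (M b a) • Matrix.single b a (1 : ℝ) := by
        rw [Matrix.smul_single, smul_eq_mul, mul_one]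
      rw [this, map_smul, hS, Matrix.of_apply, smul_eq_mul, mul_comm]
    have hSc : Compat A S := by
      apply pCP n A S hA
      intro d hd u hu0 hud
      ext a
      set Q : Matrix (Fin n) (Fin n) ℝ := Matrix.vecMulVec u.ofLp (Pi.single a 1) with hQ
      have hQx : ∀ x : E n, act Q x ∈ U d := by
        intro x
        have : act Q x = (x.ofLp a) • u := by
          ext b
          simp [act, hQ, Matrix.vecMulVec_mulVec]
        rw [this]
        exact Submodule.smul_mem _ _ (Submodule.subset_span ⟨hu0, hud⟩)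
      have h2 : duT A d Q ∈ W := Submodule.subset_span ⟨d, hd, Q, hQx, rfl⟩
      have h3 : f (duT A d Q) = 0 := hfW h2
      rw [hfS, du_trace] at h3
      have h4 : ∀ M : Matrix (Fin n) (Fin n) ℝ, (M * Q).trace = (act M u).ofLp a := by
        intro M
        rw [hQ, Matrix.mul_vecMulVec, Matrix.trace_vecMulVec]
        simp [act]
      rw [h4, cf_sub_act] at h3
      have h5 : (act S u).ofLp a - (act (Sj A S d) u).ofLp a = 0 := by
        simpa using h3
      linarith
    have h2 := h S hSc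
    apply hf1
    rw [hfS, Matrix.mul_one, h2]

end Pool.Agent.Helper71.FX
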