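import Pool.Agent.Helper71.FX.Fin

/-!
# Project FX: module MN
-/

open MeasureTheory Filter Topology
open scoped FourierTransform RealInnerProductSpace Matrix ComplexConjugate ENNReal

noncomputable section

namespace Pool.Agent.Helper71.FX

open Wav

theorem pMN (hSY : StSY) (hSU : StSU) (hLD : StLD) (hSB : StSB) (hCT : StCT) (hAB : StAB) :
    StMN := by
  intro n L N A S ψ hG hC
  have hA : A.det ≠ 0 := expansive_det hG.exp
  have hD : 0 < |A.det| := abs_pos.2 hA
  -- at least one generator
  have hL : 0 < L := by
    rcases Nat.eq_zero_or_pos L with h0 | h0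
    · exfalso
      subst h0
      obtain ⟨b, _⟩ := hG.on
      have hz : ∀ g : Lp ℂ 2 (volume : Measure (E n)), g = 0 := by
        intro g
        have h1 := b.dense_span
        have h2 : Set.range b = ∅ := by
          rw [Set.range_eq_empty_iff]
          exact ⟨fun p => Fin.elim0 p.1⟩
        rw [h2, Submodule.span_empty] at h1
        have h3 : g ∈ (⊥ : Submodule ℂ (Lp ℂ 2 (volume : Measure (E n)))).topologicalClosure := by
          rw [h1]; exact Submodule.mem_top
        have h4 : (⊥ : Submodule ℂ (Lp ℂ 2 (volume : Measure (E n)))).topologicalClosure = ⊥ := by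
          apply IsClosed.submodule_topologicalClosure_eq
          simp
        rw [h4] at h3
        simpa using h3
      have hfin : volume (Metric.ball (0 : E n) 1) ≠ ⊤ := measure_ball_lt_top.ne
      have h5 := hz (indicatorConstLp 2 (measurableSet_ball : MeasurableSet
        (Metric.ball (0 : E n) 1)) hfin (1 : ℂ))
      have h6 : ‖indicatorConstLp 2 (measurableSet_ball : MeasurableSet
        (Metric.ball (0 : E n) 1)) hfin (1 : ℂ)‖ = 0 := by rw [h5, norm_zero]
      rw [norm_indicatorConstLp (by norm_num) (by norm_num)] at h6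
      have h7 : 0 < (volume : Measure (E n)).real (Metric.ball (0 : E n) 1) := by
        rw [Measure.real, ENNReal.toReal_pos_iff]
        exact ⟨Metric.measure_ball_pos _ _ one_pos, measure_ball_lt_top⟩
      have h8 : 0 < ‖(1 : ℂ)‖ * (volume : Measure (E n)).real (Metric.ball (0 : E n) 1) ^
          (1 / (2 : ENNReal).toReal) := by
        have := Real.rpow_pos_of_pos h7 (1 / (2 : ENNReal).toReal)
        simpa using this
      exact h8.ne' h6
    · exact h0
  obtain ⟨V, hV, hcnt⟩ := hCT n A hA
  obtain ⟨C, r, hC0, hr0, hr1, hCr⟩ := hLD n L N A S ψ hG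
  have key := hAB n L (Fin n → ℤ) (fun i k => act (A ^ (-i)) (ivec k)) |A.det| V
    (S.trace / (4 * Real.pi)) C r (fun p q => (tt A S ψ p q).im) hL hD hV hC0 hr0 hr1
    (fun i => (hcnt i).1) (fun i => (hcnt i).2) (hSY n L N A S ψ hG hC) ?_ ?_ ?_
  · have hpi : (4 * Real.pi) ≠ 0 := by positivity
    rcases div_eq_zero_iff.1 key with h | h
    · exact h
    · exact absurd h hpi
  · intro p
    have := hSU n L N A S ψ hG p
    have e : |A.det| ^ (-p.2.1) * S.trace / (4 * Real.pi) =
        S.trace / (4 * Real.pi) * |A.det| ^ (-p.2.1) := by ring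
    rw [e] at this
    exact this
  · intro p j
    obtain ⟨h1, h2⟩ := hCr p j
    have h3 : Summable (fun mk : Fin L × (Fin n → ℤ) => |(tt A S ψ p (mk.1, j, mk.2)).im|) :=
      Summable.of_nonneg_of_le (fun _ => abs_nonneg _)
        (fun mk => Complex.abs_im_le_norm _) h1
    exact ⟨h3, (h3.tsum_le_tsum (fun mk => Complex.abs_im_le_norm _) h1).trans h2⟩
  · intro i j ε hε
    obtain ⟨ρ, hρ, h⟩ := hSB n L N A S ψ hG i j ε hε
    refine ⟨ρ, hρ, fun l k => ?_⟩
    refine le_trans ?_ (h l k)
    have h1 := (hCr (l, i, k) j).1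
    have hs : Summable (fun mk : Fin L × (Fin n → ℤ) =>
        if ρ < ‖ctr A (mk.1, j, mk.2) - ctr A (l, i, k)‖ then
          ‖tt A S ψ (l, i, k) (mk.1, j, mk.2)‖ else 0) := by
      apply Summable.of_nonneg_of_le _ _ h1
      · intro mk; split_ifs <;> positivity
      · intro mk
        split_ifs
        · exact le_rfl
        · positivity
    apply Summable.tsum_le_tsum _ _ hs
    · intro mk
      simp only [ctr]
      split_ifs
      · exact Complex.abs_im_le_norm _
      · exact le_rfl
    · apply Summable.of_nonneg_of_le _ _ hs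
      · intro mk; split_ifs <;> positivity
      · intro mk
        simp only [ctr]
        split_ifs
        · exact Complex.abs_im_le_norm _
        · exact le_rfl

end Pool.Agent.Helper71.FX
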