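import Pool.Agent.Helper71.FX.M_CP

/-!
# Project FX: module SU
-/

open MeasureTheory Filter Topology
open scoped FourierTransform RealInnerProductSpace Matrix ComplexConjugate ENNReal

noncomputable section

namespace Pool.Agent.Helper71.FX

open Wav

variable {n : ℕ}

lemma su_trace {A S : Matrix (Fin n) (Fin n) ℝ} (hA : A.det ≠ 0) (j : ℤ) :
    (Sj A S j).trace = |A.det| ^ (-j) * S.trace := by
  have hu : IsUnit (Aᵀ).det := isUnit_iff_ne_zero.2 (by rwa [Matrix.det_transpose])
  rw [Sj, Matrix.trace_smul, smul_eq_mul, Matrix.mul_assoc, Matrix.trace_mul_comm,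
    Matrix.mul_assoc, Matrix.zpow_neg_mul_zpow_self _ hu, Matrix.mul_one]

lemma su_inner (M : Matrix (Fin n) (Fin n) ℝ) (k : Fin n) :
    ⟪(ek k : E n), act Mᵀ (ek k)⟫ = M k k := by
  simp [ek, act, EuclideanSpace.inner_single_left, Matrix.mulVec_single_one]

theorem pSU (hPV : StPV) : StSU := by
  intro n L N A S ψ hG p
  have hA : A.det ≠ 0 := expansive_det hG.exp
  choose J hJ hJi using fun k : Fin n => hPV n L N A ψ hG p (ek k) (act (Sj A S p.2.1)ᵀ (ek k))
  have h1 : HasSum (fun q => tt A S ψ p q) (∑ k, J k) := by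
    unfold tt
    exact hasSum_sum fun k _ => hJ k
  have h2 := Complex.hasSum_im h1
  have h3 : (∑ k, J k).im = |A.det| ^ (-p.2.1) * S.trace / (4 * Real.pi) := by
    rw [Complex.im_sum]
    simp only [hJi, su_inner]
    rw [← Finset.sum_div, ← su_trace hA]
    rfl
  rw [← h3]
  exact h2

end Pool.Agent.Helper71.FX
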