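import Pool.Agent.Helper84.FX.StX

set_option autoImplicit false

namespace Pool.Agent.Helper71.FX

open Set
open Pool.Agent.Helper84.FX Pool.Agent.Helper72.FX

private theorem hap (i : Fin 10) (x : Fin 10 → ℂ) :
    HasFDerivAt (𝕜 := ℂ) (fun z : Fin 10 → ℂ => z i)
      (ContinuousLinearMap.proj (R := ℂ) (φ := fun _ : Fin 10 => ℂ) i) x :=
  (ContinuousLinearMap.proj (R := ℂ) (φ := fun _ : Fin 10 => ℂ) i).hasFDerivAt

/-- the differential of `ν` -/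
private noncomputable def dn (x : Fin 10 → ℂ) : (Fin 10 → ℂ) →L[ℂ] ℂ :=
  (2 + 2 * x 2 * x 1) • ContinuousLinearMap.proj (R := ℂ) (φ := fun _ : Fin 10 => ℂ) 1 +
  (x 1 ^ 2) • ContinuousLinearMap.proj (R := ℂ) (φ := fun _ : Fin 10 => ℂ) 2 -
  (2 * x 0) • ContinuousLinearMap.proj (R := ℂ) (φ := fun _ : Fin 10 => ℂ) 0

private theorem dn_apply (x v : Fin 10 → ℂ) :
    dn x v = (2 + 2 * x 2 * x 1) * v 1 + x 1 ^ 2 * v 2 - 2 * x 0 * v 0 := by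
  simp [dn]

private theorem hdn (x : Fin 10 → ℂ) : HasFDerivAt (𝕜 := ℂ) nz (dn x) x := by
  have h := (((hap 1 x).const_mul (2 : ℂ)).add ((hap 2 x).mul ((hap 1 x).pow 2))).sub
    ((hap 0 x).pow 2)
  have h2 := h.congr_fderiv (g' := dn x) (by
    ext v
    simp [dn]
    ring)
  exact h2

private theorem sol (a b t c : ℂ) (h : ¬ (a = 0 ∧ 1 + t * b = 0)) :
    ∃ v0 v1 : ℂ, (2 + 2 * t * b) * v1 - 2 * a * v0 = c := by
  by_cases ha : a = 0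
  · have hb : 1 + t * b ≠ 0 := fun hb => h ⟨ha, hb⟩
    refine ⟨0, c / (2 * (1 + t * b)), ?_⟩
    field_simp
    ring
  · refine ⟨-c / (2 * a), 0, ?_⟩
    field_simp
    ring

private theorem hOm (U : Set ℂ) (hU : IsOpen U) : IsOpen {z : Fin 10 → ℂ | z 2 ∈ U} :=
  hU.preimage (continuous_apply 2)

private theorem tN1 (hT : StTMC) (hG : StGR) (U : Set ℂ) (hU : IsOpen U) (h0 : (0 : ℂ) ∉ U) :
    Tame (N1 U) (fun z => z 3) := by
  have key := hT (Fin 10 → ℂ) ℂ (ℂ × ℂ × ℂ × ℂ × ℂ) {z | z 2 ∈ U}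
    (fun y => (y 4, y 7, y 8, y 9, nz y - y 5 * y 6)) (fun z => z 3) (hOm U hU)
    (by unfold nz nu; fun_prop) (by fun_prop) ?_
  · have hs : N1 U = {x | x ∈ {z : Fin 10 → ℂ | z 2 ∈ U} ∧
        (x 4, x 7, x 8, x 9, nz x - x 5 * x 6) = (0 : ℂ × ℂ × ℂ × ℂ × ℂ)} := by
      ext z
      simp only [N1, mem_setOf_eq, Prod.mk_eq_zero, sub_eq_zero]
    rw [hs]
    exact key
  · intro x hx he hg
    simp only [Prod.mk_eq_zero, sub_eq_zero] at he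
    obtain ⟨h4, h7, h8, h9, hnu⟩ := he
    have ht : x 2 ≠ 0 := fun h => h0 (h ▸ hx)
    have hd : HasFDerivAt (𝕜 := ℂ)
        (fun y : Fin 10 → ℂ => ((y 4, y 7, y 8, y 9, nz y - y 5 * y 6), y 3)) _ x :=
      ((hap 4 x).prodMk ((hap 7 x).prodMk ((hap 8 x).prodMk ((hap 9 x).prodMk
        ((hdn x).sub ((hap 5 x).mul (hap 6 x))))))).prodMk (hap 3 x)
    have hd2 := (hd.restrictScalars ℝ).fderiv
    rw [hd2]
    rintro ⟨⟨c4, c7, c8, c9, c⟩, γ⟩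
    have hex : ∃ v0 v1 v6 : ℂ, (2 + 2 * x 2 * x 1) * v1 - 2 * x 0 * v0 - x 5 * v6 = c := by
      by_cases hab : x 0 = 0 ∧ 1 + x 2 * x 1 = 0
      · have hnz : nz x ≠ 0 := hG.1 _ _ _ ht hab.1 hab.2
        have h5 : x 5 ≠ 0 := fun h => hnz (by rw [hnu, h, zero_mul])
        refine ⟨0, 0, -c / x 5, ?_⟩
        field_simp
        ring
      · obtain ⟨v0, v1, hv⟩ := sol _ _ _ c hab
        exact ⟨v0, v1, 0, by rw [hv]; ring⟩
    obtain ⟨v0, v1, v6, hv⟩ := hex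
    refine ⟨![v0, v1, 0, γ, c4, 0, v6, c7, c8, c9], ?_⟩
    simp only [ContinuousLinearMap.coe_restrictScalars', ContinuousLinearMap.prod_apply,
      ContinuousLinearMap.proj_apply, ContinuousLinearMap.sub_apply, dn_apply,
      ContinuousLinearMap.add_apply, ContinuousLinearMap.smul_apply, smul_eq_mul]
    refine Prod.ext (Prod.ext rfl (Prod.ext rfl (Prod.ext rfl (Prod.ext rfl ?_)))) rfl
    change (2 + 2 * x 2 * x 1) * v1 + x 1 ^ 2 * 0 - 2 * x 0 * v0 - (x 5 * v6 + x 6 * 0) = c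
    rw [← hv]
    ring

private theorem tN2 (hT : StTMC) (hG : StGR) (U : Set ℂ) (hU : IsOpen U) (h0 : (0 : ℂ) ∉ U) :
    Tame (N2 U) (fun z => z 3) := by
  have key := hT (Fin 10 → ℂ) ℂ (ℂ × ℂ × ℂ × ℂ × ℂ) {z | z 2 ∈ U}
    (fun y => (y 6, y 7, y 8, y 9, nz y - y 3 * y 4)) (fun z => z 3) (hOm U hU)
    (by unfold nz nu; fun_prop) (by fun_prop) ?_
  · have hs : N2 U = {x | x ∈ {z : Fin 10 → ℂ | z 2 ∈ U} ∧
        (x 6, x 7, x 8, x 9, nz x - x 3 * x 4) = (0 : ℂ × ℂ × ℂ × ℂ × ℂ)} := by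
      ext z
      simp only [N2, mem_setOf_eq, Prod.mk_eq_zero, sub_eq_zero]
    rw [hs]
    exact key
  · intro x hx he hg
    simp only [Prod.mk_eq_zero, sub_eq_zero] at he
    obtain ⟨h6, h7, h8, h9, hnu⟩ := he
    have hg' : x 3 = 0 := hg
    have ht : x 2 ≠ 0 := fun h => h0 (h ▸ hx)
    have hd : HasFDerivAt (𝕜 := ℂ)
        (fun y : Fin 10 → ℂ => ((y 6, y 7, y 8, y 9, nz y - y 3 * y 4), y 3)) _ x :=
      ((hap 6 x).prodMk ((hap 7 x).prodMk ((hap 8 x).prodMk ((hap 9 x).prodMk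
        ((hdn x).sub ((hap 3 x).mul (hap 4 x))))))).prodMk (hap 3 x)
    have hd2 := (hd.restrictScalars ℝ).fderiv
    rw [hd2]
    rintro ⟨⟨c6, c7, c8, c9, c⟩, γ⟩
    have hab : ¬ (x 0 = 0 ∧ 1 + x 2 * x 1 = 0) := by
      intro hab
      exact hG.1 _ _ _ ht hab.1 hab.2 (by
        change nz x = 0
        rw [hnu, hg', zero_mul])
    obtain ⟨v0, v1, hv⟩ := sol _ _ _ (c + x 4 * γ) hab
    refine ⟨![v0, v1, 0, γ, 0, 0, c6, c7, c8, c9], ?_⟩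
    simp only [ContinuousLinearMap.coe_restrictScalars', ContinuousLinearMap.prod_apply,
      ContinuousLinearMap.proj_apply, ContinuousLinearMap.sub_apply, dn_apply,
      ContinuousLinearMap.add_apply, ContinuousLinearMap.smul_apply, smul_eq_mul]
    refine Prod.ext (Prod.ext rfl (Prod.ext rfl (Prod.ext rfl (Prod.ext rfl ?_)))) rfl
    change (2 + 2 * x 2 * x 1) * v1 + x 1 ^ 2 * 0 - 2 * x 0 * v0 - (x 3 * 0 + x 4 * γ) = c
    linear_combination hv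

private theorem tN3 (hT : StTMC) (hG : StGR) (U : Set ℂ) (hU : IsOpen U) (h0 : (0 : ℂ) ∉ U) :
    Tame (N1 U ∩ N2 U) (fun z => z 3) := by
  have key := hT (Fin 10 → ℂ) ℂ (ℂ × ℂ × ℂ × ℂ × ℂ × ℂ) {z | z 2 ∈ U}
    (fun y => (y 4, y 6, y 7, y 8, y 9, nz y)) (fun z => z 3) (hOm U hU)
    (by unfold nz nu; fun_prop) (by fun_prop) ?_
  · have hs : N1 U ∩ N2 U = {x | x ∈ {z : Fin 10 → ℂ | z 2 ∈ U} ∧
        (x 4, x 6, x 7, x 8, x 9, nz x) = (0 : ℂ × ℂ × ℂ × ℂ × ℂ × ℂ)} := by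
      ext z
      simp only [N1, N2, mem_inter_iff, mem_setOf_eq, Prod.mk_eq_zero]
      constructor
      · rintro ⟨⟨h2, h4, h7, h8, h9, h⟩, -, h6, -⟩
        exact ⟨h2, h4, h6, h7, h8, h9, by rw [h, h6, mul_zero]⟩
      · rintro ⟨h2, h4, h6, h7, h8, h9, h⟩
        exact ⟨⟨h2, h4, h7, h8, h9, by rw [h, h6, mul_zero]⟩, h2, h6, h7, h8, h9,
          by rw [h, h4, mul_zero]⟩
    rw [hs]
    exact key
  · intro x hx he hg
    simp only [Prod.mk_eq_zero] at he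
    obtain ⟨h4, h6, h7, h8, h9, hnu⟩ := he
    have ht : x 2 ≠ 0 := fun h => h0 (h ▸ hx)
    have hd : HasFDerivAt (𝕜 := ℂ)
        (fun y : Fin 10 → ℂ => ((y 4, y 6, y 7, y 8, y 9, nz y), y 3)) _ x :=
      ((hap 4 x).prodMk ((hap 6 x).prodMk ((hap 7 x).prodMk ((hap 8 x).prodMk
        ((hap 9 x).prodMk (hdn x)))))).prodMk (hap 3 x)
    have hd2 := (hd.restrictScalars ℝ).fderiv
    rw [hd2]
    rintro ⟨⟨c4, c6, c7, c8, c9, c⟩, γ⟩
    have hab : ¬ (x 0 = 0 ∧ 1 + x 2 * x 1 = 0) := by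
      intro hab
      exact hG.1 _ _ _ ht hab.1 hab.2 hnu
    obtain ⟨v0, v1, hv⟩ := sol _ _ _ c hab
    refine ⟨![v0, v1, 0, γ, c4, 0, c6, c7, c8, c9], ?_⟩
    simp only [ContinuousLinearMap.coe_restrictScalars', ContinuousLinearMap.prod_apply,
      ContinuousLinearMap.proj_apply, dn_apply]
    refine Prod.ext (Prod.ext rfl (Prod.ext rfl (Prod.ext rfl (Prod.ext rfl
      (Prod.ext rfl ?_))))) rfl
    change (2 + 2 * x 2 * x 1) * v1 + x 1 ^ 2 * 0 - 2 * x 0 * v0 = c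
    linear_combination hv

theorem hTNR : StTMC → StGR → StTNR := fun hT hG U hU h0 =>
  ⟨tN1 hT hG U hU h0, tN2 hT hG U hU h0, tN3 hT hG U hU h0⟩

end Pool.Agent.Helper71.FX
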