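import Pool.Agent.Helper71.FX.Defs

/-!
# Project FX (MP_d629b1_an): statements of the modules

THEOREM (end of the project). Let `A` be expansive, `B = Aᵀ`, `D = |det A|`, `N > n`. If there is a
well-localized orthonormal wavelet for `(A, ℤⁿ)`, then the flux condition `Flux A` holds.

Conventions of the docstrings: `i = p.2.1` is the scale of `p`, `(l, i, k) = p`; `q = (m, j, k')`.
`aff p (x) = D^(i/2) ψ_l(A^i x - k)`, `fa p (ξ) = D^(-i/2) e(-⟨A^(-i) k, ξ⟩) Ψ_l(B^(-i) ξ)` with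
`Ψ_l = 𝓕 ψ_l`; `ctr p = A^(-i) k`. Inner products are conjugate linear in the first argument.
Every module may use all the other statements as hypotheses (they are Props) and the library
`Pool.Agent.Helper{59,67,79,26,98,40,5,22}.Wav.*` (see the docstrings for the names).
-/

open MeasureTheory Filter Topology
open scoped FourierTransform RealInnerProductSpace Matrix ComplexConjugate ENNReal

noncomputable section

namespace Pool.Agent.Helper71.FX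

open Wav

/-- MODULE BS (basis). The functions `aff p` are the elements of a Hilbert basis `b`, and the `L²`
Fourier transform of `b p` is `fa p`.
PROOF. `Good.on` gives `b` (definition of `IsONWavelet`), `(b p : E n → ℂ) =ᵐ aff p`. By
`Wav.WellLocalized.integrable` (N > n) and `memLp`, `aff p` is integrable and square integrable
(`Wav.affine_memLp`, for exponents 1 and 2); `b p = toLp (aff p)` and `Wav.fourier_toLp`,
`Wav.fourier_affine` give the second statement (see the proof of `Wav.transfer` in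
`Pool.Agent.Helper67.Wav.Four`, it is exactly this). `A.det ≠ 0` is `Wav.expansive_det`. -/
def StBS : Prop := ∀ (n L : ℕ) (N : ℝ) (A : Matrix (Fin n) (Fin n) ℝ) (ψ : Fin L → E n → ℂ),
  Good N A ψ → ∃ b : HilbertBasis (Ix n L) ℂ (Lp ℂ 2 (volume : Measure (E n))),
    (∀ p, (b p : E n → ℂ) =ᵐ[volume] aff A ψ p) ∧
    ∀ p, (𝓕 (b p) : Lp ℂ 2 (volume : Measure (E n))) =ᵐ[volume] fa A ψ p

/-- MODULE LX (position functions are square integrable), for all `p`, `w`, `c`.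
PROOF. `aff p x = D^(i/2) ψ_l(A^i x - k)`; substituting `y = A^i x - k` (`Wav.map_act`,
`Wav.act_emb`, as in `Wav.affine_memLp`) it is enough to show that
`x ↦ ⟨w', x⟩ ψ_l(x) + a ψ_l(x)` is in `L²` for all `w'`, `a`, hence that `‖x‖ ψ_l(x)` is in `L²`:
on the ball of radius `R` it is bounded by `R ‖ψ_l‖ ∈ L²`, outside it is bounded by
`C ‖x‖^(1-N)` (`WellLocalized.decay`), whose square `C² ‖x‖^(2-2N)` is integrable outside a ball
since `2N - 2 > n` (`Good.big'`) (e.g. `integrable_one_add_norm`). -/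
def StLX : Prop := ∀ (n L : ℕ) (N : ℝ) (A : Matrix (Fin n) (Fin n) ℝ) (ψ : Fin L → E n → ℂ),
  Good N A ψ → ∀ (p : Ix n L) (w c : E n),
    MemLp (fun x => ((⟪w, x - c⟫ : ℝ) : ℂ) * aff A ψ p x) 2 (volume : Measure (E n))

/-- MODULE LF (frequency functions are square integrable).
PROOF. `|fa p ξ| = D^(-i/2) |Ψ_l(B^(-i) ξ)|`, `|Ψ_l(η)| ≤ C (1 + ‖η‖)^(-N)` by
`Wav.WellLocalized.fourier_bound` (`Pool.Agent.Helper26.Wav.NB`); substitute `η = B^(-i) ξ`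
(`Wav.map_act`, `Wav.act_emb`): `‖η‖ |Ψ_l(η)| ≤ C (1 + ‖η‖)^(1-N)` is in `L²` since `2N - 2 > n`
(`Good.big'`, `integrable_one_add_norm`). Measurability: `Ψ_l` is continuous, since `ψ_l` is
integrable (`N2Aux.fourier_cont`). Same substitution without the factor for the second statement. -/
def StLF : Prop := ∀ (n L : ℕ) (N : ℝ) (A : Matrix (Fin n) (Fin n) ℝ) (ψ : Fin L → E n → ℂ),
  Good N A ψ → (∀ (p : Ix n L) (w : E n),
    MemLp (fun ξ => ((⟪w, ξ⟫ : ℝ) : ℂ) * fa A ψ p ξ) 2 (volume : Measure (E n))) ∧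
    ∀ p : Ix n L, MemLp (fa A ψ p) 2 (volume : Measure (E n))

/-- MODULE UN (uncertainty identity). `f` is integrable and square integrable, `X = ⟨w, x - c⟩ f`
and `G = ⟨w', ξ⟩ 𝓕 f` are square integrable. Then the imaginary part of `⟨𝓕 X, G⟩` is
`⟨w, w'⟩ ‖f‖² / (4π)`.
PROOF. For `s > 0` put `D_s(x) = (f(x + s w') - f(x)) / (2πi s)`; it is integrable and square
integrable and `𝓕 D_s (ξ) = (e^(2πi s ⟨w', ξ⟩) - 1) / (2πi s) · 𝓕 f(ξ)` (Fourier transform of a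
translate, e.g. `VectorFourier.fourierIntegral_comp_add_right`; pass to `L²` with
`Wav.fourier_toLp`). Since `|e^(iθ) - 1| ≤ |θ|`, the right side is bounded by `|G|` and tends to `G`
pointwise, so `𝓕 D_s → G` in `L²` as `s → 0+` (dominated convergence), and `‖𝓕 D_s‖ ≤ ‖G‖`, that is
`‖D_s‖ ≤ ‖G‖`. As the Fourier transform is unitary, `⟨𝓕 X, G⟩ = lim ⟨𝓕 X, 𝓕 D_s⟩ = lim ⟨X, D_s⟩`.
Now `⟨X, D_s⟩ = (1/(2πi s)) ∫ ⟨w, x-c⟩ conj f(x) (f(x + s w') - f(x)) dx`, so its imaginary part is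
`-(1/(2π s)) Re ∫ ⟨w, x-c⟩ conj f(x) (f(x+sw') - f(x)) dx`, and
`2 Re (conj f(x) (f(x+sw') - f(x))) = |f(x+sw')|² - |f(x)|² - |f(x+sw') - f(x)|²`,
`∫ ⟨w, x-c⟩ (|f(x+sw')|² - |f(x)|²) dx = - s ⟨w, w'⟩ ‖f‖²` (substitution). Hence
`Im ⟨X, D_s⟩ = (⟨w,w'⟩ ‖f‖² + E_s / s) / (4π)`, `E_s = ∫ ⟨w, x-c⟩ |f(x+sw') - f(x)|² dx`. Finally
`|E_s / s| ≤ ‖⟨w, x-c⟩ (f(x+sw') - f(x))‖ ‖2π D_s‖ ≤ 2π ‖G‖ (‖X(·+sw') - X‖ + s |⟨w,w'⟩| ‖f‖) → 0`,
because `⟨w, x-c⟩ f(x+sw') = X(x+sw') - s ⟨w,w'⟩ f(x+sw')` and translations are continuous in `L²`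
(Mathlib: `Mathlib.MeasureTheory.Function.LpSpace.DomAct.Continuous`, or approximate by continuous
functions with compact support). -/
def StUN : Prop := ∀ (n : ℕ) (f : E n → ℂ) (w w' c : E n) (_ : Integrable f)
  (hf : MemLp f 2 (volume : Measure (E n)))
  (hX : MemLp (fun x => ((⟪w, x - c⟫ : ℝ) : ℂ) * f x) 2 (volume : Measure (E n)))
  (hG : MemLp (fun ξ => ((⟪w', ξ⟫ : ℝ) : ℂ) * 𝓕 f ξ) 2 (volume : Measure (E n))),
  (inner ℂ (𝓕 (hX.toLp _) : Lp ℂ 2 (volume : Measure (E n))) (hG.toLp _)).im =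
    ⟪w, w'⟫ * ‖hf.toLp f‖ ^ 2 / (4 * Real.pi)

/-- MODULE PV (Parseval). For all `p, w, w'` the products `ax p q w * gy p q w'` are summable over
`q`, and the imaginary part of the sum is `⟨w, w'⟩ / (4π)`.
PROOF. Hypotheses BS, LX, LF, UN. Let `X = toLp (⟨w, x - ctr p⟩ aff p)` (LX), `G = toLp (⟨w', ξ⟩ fa p)`
(LF) and `Φ = Lp.fourierTransformₗᵢ`. Then `ax p q w = ⟨X, b q⟩` (`L2.inner_def`, with `b q = aff q`
a.e.) and `gy p q w' = ⟨𝓕 (b q), G⟩ = ⟨b q, Φ.symm G⟩`. `HilbertBasis.hasSum_inner_mul_inner` gives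
the sum `⟨X, Φ.symm G⟩ = ⟨𝓕 X, G⟩`. Its imaginary part is `⟨w, w'⟩ ‖aff p‖² / (4π) = ⟨w, w'⟩/(4π)`
by UN (`f = aff p`, `c = ctr p`; `𝓕 (aff p) = fa p` pointwise is `Wav.fourier_affine`,
`‖toLp (aff p)‖ = ‖b p‖ = 1`; `aff p` is integrable). -/
def StPV : Prop := ∀ (n L : ℕ) (N : ℝ) (A : Matrix (Fin n) (Fin n) ℝ) (ψ : Fin L → E n → ℂ),
  Good N A ψ → ∀ (p : Ix n L) (w w' : E n), ∃ J : ℂ,
    HasSum (fun q => ax A ψ p q w * gy A ψ p q w') J ∧ J.im = ⟪w, w'⟫ / (4 * Real.pi)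

/-- MODULE AX. Symmetry of the position coefficients, for `p ≠ q`.
PROOF. `conj (⟨w, x - ctr p⟩ aff p) aff q = ⟨w, x - ctr q⟩ conj (aff p) aff q +
⟨w, ctr q - ctr p⟩ conj (aff p) aff q`; all products are integrable (product of two `L²` functions,
LX; for `aff` itself BS or `Wav.affine_memLp`), and `∫ conj (aff p) aff q = 0` by orthonormality
(BS, `N2Aux.basis_orth`). The integral of the first term is `conj (ax q p w)`
(`integral_conj`). -/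
def StAX : Prop := ∀ (n L : ℕ) (N : ℝ) (A : Matrix (Fin n) (Fin n) ℝ) (ψ : Fin L → E n → ℂ),
  Good N A ψ → ∀ (p q : Ix n L) (w : E n), p ≠ q → ax A ψ p q w = conj (ax A ψ q p w)

/-- MODULE GZ. The frequency coefficients vanish for directions orthogonal to the common vectors.
PROOF. Let `i, j` be the scales of `p, q`, `i ≠ j`. For real `s` put
`F(s) = ∫ conj (fa q ξ) fa p ξ · e(s ⟨w, ξ⟩) dξ`. By `Wav.ND.faff_mul`
(`Pool.Agent.Helper98.Wav.ND`) the integrand is a constant times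
`conj (Ψ_m(B^(-j) ξ)) Ψ_l(B^(-i) ξ) e(⟨u + s w, ξ⟩)`, `u = A^(-j) k' - A^(-i) k`, and
`⟨u + s w, y⟩` is an integer for every common vector `y` of the two lattices
(`Wav.ND.inner_lattice`, `Wav.ND.inner_ivec`; the `w` part is `0` by hypothesis). So
`Wav.product_coeff` (orthogonality hypothesis: `Wav.N1.orth_of_ne` with the basis of
`Wav.transfer`) gives `F(s) = 0` for all `s` (compare the proof of `Wav.half_space_orth`). The
derivative at `0` is `2πi ∫ conj (fa q) ⟨w, ξ⟩ fa p` (differentiation under the integral,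
`hasDerivAt_integral_of_dominated_loc_of_deriv_le`, dominated by
`2π |fa q| |⟨w, ξ⟩ fa p|`, integrable by LF). -/
def StGZ : Prop := ∀ (n L : ℕ) (N : ℝ) (A : Matrix (Fin n) (Fin n) ℝ) (ψ : Fin L → E n → ℂ),
  Good N A ψ → ∀ (p q : Ix n L) (w : E n), p.2.1 ≠ q.2.1 →
    (∀ y, y ∈ WavN.Lat A p.2.1 → y ∈ WavN.Lat A q.2.1 → ⟪w, y⟫ = 0) → gy A ψ p q w = 0

/-- MODULE CP. The compatibility for all pairs follows from the pairs `(0, d)`, `d ≥ 1`.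
PROOF. `B^i (Sj (j - i)) B^(-i) D^(-i) = Sj j` (matrix algebra, `Matrix.zpow_add`). Let
`x ∈ G_i ∩ G_j`, `i < j` (the case `j < i` is symmetric, `i = j` trivial), `d = j - i ≥ 1`,
`y = B^(-i) x ∈ G_0 ∩ G_d`. Then `Sj i x = D^(-i) B^i S B^(-i) x = D^(-i) B^i (S y)` and
`Sj j x = D^(-i) B^i (Sj d) B^(-i) x = D^(-i) B^i (Sj d y)`, and `S y = Sj d y` by hypothesis. -/
def StCP : Prop := ∀ (n : ℕ) (A S : Matrix (Fin n) (Fin n) ℝ), A.det ≠ 0 →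
  (∀ d : ℤ, 1 ≤ d → ∀ x : E n, x ∈ WavN.Lat A 0 → x ∈ WavN.Lat A d →
    act S x = act (Sj A S d) x) → Compat A S

/-- MODULE SY (antisymmetry).
PROOF. Hypotheses AX, GZ. `gy p q w = conj (gy q p w)` always (`integral_conj`), and `gy p q` is
additive in `w` (integrability from LF) . Let `i, j` be the scales. For `p ≠ q`:
`gy p q (Sj i ᵀ e_k) = gy p q (Sj j ᵀ e_k)`: trivial for `i = j`; for `i ≠ j` the difference is
`gy p q ((Sj i - Sj j)ᵀ e_k)` and `⟨(Sj i - Sj j)ᵀ e_k, y⟩ = ⟨e_k, (Sj i - Sj j) y⟩ = 0` for common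
vectors `y` (`Compat`), use GZ. Hence `tt p q = Σ_k conj (ax q p e_k) conj (gy q p (Sj j ᵀ e_k)) =
conj (tt q p)` and the imaginary parts are opposite. For `p = q` both factors of every term of
`tt p p` are real: `ax p p w = ∫ ⟨w, x - ctr p⟩ |aff p|²`, `gy p p w = ∫ ⟨w, ξ⟩ |fa p|²`, so the
imaginary part is `0`. -/
def StSY : Prop := ∀ (n L : ℕ) (N : ℝ) (A S : Matrix (Fin n) (Fin n) ℝ) (ψ : Fin L → E n → ℂ),
  Good N A ψ → Compat A S → ∀ p q : Ix n L, (tt A S ψ p q).im = -(tt A S ψ q p).im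

/-- MODULE SU (the sum).
PROOF. PV with `w = e_k`, `w' = (Sj i)ᵀ e_k`, summed over `k` (`hasSum_sum`): the imaginary part of
the sum is `Σ_k ⟨e_k, (Sj i)ᵀ e_k⟩ / (4π) = trace (Sj i) / (4π)`, and
`trace (Sj i) = D^(-i) trace (B^i S B^(-i)) = D^(-i) trace S` (`Matrix.trace_mul_comm`). -/
def StSU : Prop := ∀ (n L : ℕ) (N : ℝ) (A S : Matrix (Fin n) (Fin n) ℝ) (ψ : Fin L → E n → ℂ),
  Good N A ψ → ∀ p : Ix n L,
    HasSum (fun q => (tt A S ψ p q).im) (|A.det| ^ (-p.2.1) * S.trace / (4 * Real.pi))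

/-- MODULE PB (Bessel bound at one scale).
PROOF. Put `F(η) = D^(j/2) conj (Ψ(η)) g(B^j η)` (integrable). Substituting `ξ = B^j η`
(`Wav.integral_act`), `∫ conj (faff A Ψ j k ξ) g(ξ) dξ = ∫ F(η) e(⟨k, η⟩) dη`. By
`parseval_per` of `Pool.Agent.Helper59.Wav.Torus` (functions on `Fin n → ℝ`; move from `E n` by the
volume preserving map `WithLp.ofLp`) the sum over `k` of the squares is the integral over the unit
cube of the square of the periodization of `F`, provided that this is square integrable on the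
cube. By Cauchy-Schwarz the square of the periodization of `|F|` is at most
`(Σ_m |Ψ(η+m)|) (Σ_m |Ψ(η+m)| D^j |g(B^j (η+m))|²)`, the first factor is at most a constant `K`
(`Wav.lattice_sum`, `N > n`), and the integral of the second over the cube is
`∫ |Ψ(η)| D^j |g(B^j η)|² dη = ∫ |g(ξ)|² |Ψ(B^(-j) ξ)| dξ` (finite, `Ψ` is bounded). -/
def StPB : Prop := ∀ (n : ℕ) (N C : ℝ) (A : Matrix (Fin n) (Fin n) ℝ) (Ψ : E n → ℂ),
  A.det ≠ 0 → (n : ℝ) < N → Continuous Ψ → (∀ ξ, ‖Ψ ξ‖ ≤ C * (1 + ‖ξ‖) ^ (-N)) →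
  ∃ K : ℝ, 0 ≤ K ∧ ∀ (j : ℤ) (g : E n → ℂ), MemLp g 2 (volume : Measure (E n)) →
    Summable (fun k : Fin n → ℤ => ‖∫ ξ, conj (faff A Ψ j k ξ) * g ξ‖ ^ 2) ∧
    ∑' k : Fin n → ℤ, ‖∫ ξ, conj (faff A Ψ j k ξ) * g ξ‖ ^ 2 ≤
      K * ∫ ξ, ‖g ξ‖ ^ 2 * ‖Ψ (act (Aᵀ ^ (-j)) ξ)‖

/-- MODULE ZO (the Fourier transforms vanish at the origin).
PROOF. Let `g` be the indicator function of the unit ball `U` of `E n` (`L²` norm not 0; for
`n = 0` see below). For large `j` the differences of points of `B^(-j) U` are smaller than `1` in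
norm (`Wav.growth_pos`), so that the functions `η ↦ F(η + m)`, `m ∈ ℤⁿ`,
`F(η) = D^(j/2) conj (Ψ_l(η)) g(B^j η)`, have disjoint supports and the square of the periodization
is the periodization of the square: by `parseval_per` (see module PB)
`Σ_k |⟨fa (l,j,k), g⟩|² = ∫ |F|² = ∫_U |Ψ_l(B^(-j) ξ)|² dξ`, which tends to
`|Ψ_l(0)|² vol(U)` as `j → ∞` (continuity of `Ψ_l`, `B^(-j) ξ → 0` uniformly on `U`). By Bessel's
inequality for the orthonormal system `fa p` the sum over `j` of the left sides is at most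
`‖g‖² < ∞`, so the limit is `0`. For `n = 0` the space is a point, `L²` has dimension 1, but the
system has infinitely many elements as soon as there is an index `l` (scales `j ∈ ℤ`):
contradiction. -/
def StZO : Prop := ∀ (n L : ℕ) (N : ℝ) (A : Matrix (Fin n) (Fin n) ℝ) (ψ : Fin L → E n → ℂ),
  Good N A ψ → ∀ l, 𝓕 (ψ l) 0 = 0

/-- MODULE DE (decay of the overlap integral).
PROOF. `d < 0`: by `Wav.growth_neg` (`j0 = 0`) `‖B^(-d) ξ‖ ≥ c ρ^(-d) ‖ξ‖`, and `N ≥ 1` gives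
`‖Ψ(B^(-d) ξ)‖ ≤ C (1 + c ρ^(-d) ‖ξ‖)^(-N) ≤ C (c ρ^(-d) ‖ξ‖)^(-1)`, so the integral is at most
`C³ c⁻¹ ρ^d ∫ ‖ξ‖ (1 + ‖ξ‖)^(-2N)`, finite since `2N - 1 > n` (`N > n`, `N ≥ 1`; for `N < 1` we
have `n = 0`, where `‖ξ‖ = 0` and everything is `0`). `d ≥ 0`: by `Wav.growth_pos`
`‖B^(-d) ξ‖ ≤ C₁ ρ^(-d) ‖ξ‖`; from `‖Ψ‖ ≤ C` and `‖Ψ(η)‖ = ‖Ψ(η) - Ψ(0)‖ ≤ H ‖η‖^α` we get
`‖Ψ(η)‖ ≤ H' ‖η‖^β` for every `0 < β ≤ α` (both bounds, `‖η‖ ≤ 1` or not); choose `β ≤ α` with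
`2N - 2 - β > n` (`N > n/2 + 1`). The integral is at most
`C² H' C₁^β ρ^(-βd) ∫ ‖ξ‖^(2+β) (1+‖ξ‖)^(-2N)`. Take `r = max (ρ⁻¹) (ρ^(-β))`. -/
def StDE : Prop := ∀ (n : ℕ) (N C H α : ℝ) (A : Matrix (Fin n) (Fin n) ℝ) (Φ Ψ : E n → ℂ),
  Expansive A → (n : ℝ) < N → (n : ℝ) / 2 + 1 < N → 0 < α → Continuous Φ → Continuous Ψ →
  (∀ ξ, ‖Φ ξ‖ ≤ C * (1 + ‖ξ‖) ^ (-N)) → (∀ ξ, ‖Ψ ξ‖ ≤ C * (1 + ‖ξ‖) ^ (-N)) →
  (∀ ξ ξ' : E n, ‖Ψ ξ - Ψ ξ'‖ ≤ H * ‖ξ - ξ'‖ ^ α) → Ψ 0 = 0 →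
  ∃ K r : ℝ, 0 ≤ K ∧ 0 ≤ r ∧ r < 1 ∧ ∀ d : ℤ,
    ∫ ξ, ‖ξ‖ ^ 2 * ‖Φ ξ‖ ^ 2 * ‖Ψ (act (Aᵀ ^ (-d)) ξ)‖ ≤ K * r ^ d.natAbs

/-- MODULE LA (coordinates of scale 0).
PROOF. With `i` the scale of `p`: `⟨w, x - ctr p⟩ = ⟨w, A^(-i) (A^i x - k)⟩ =
Σ_a (A^(-i)ᵀ w)_a (A^i x - k)_a`, so `ax p q w = Σ_a (A^(-i)ᵀ w)_a axd p q a` (integrability of the
terms: LX with suitable `w, c`, and BS), `⟨w, ξ⟩ = ⟨(B^i)ᵀ w, B^(-i) ξ⟩`, so
`gy p q w = Σ_b ((B^i)ᵀ w)_b gyd p q b`. Then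
`tt p q = Σ_{a,b} (Σ_k (A^(-i))_{ka} ((B^i)ᵀ (Sj i)ᵀ)_{bk}) axd a gyd b` and
`Σ_k (A^(-i))_{ka} ((B^i)ᵀ (Sj i)ᵀ)_{bk} = ((A^(-i))ᵀ (Sj i) B^i)_{ab} = (B^(-i) (Sj i) B^i)_{ab} =
D^(-i) S_{ab}`. -/
def StLA : Prop := ∀ (n L : ℕ) (N : ℝ) (A S : Matrix (Fin n) (Fin n) ℝ) (ψ : Fin L → E n → ℂ),
  Good N A ψ → ∀ p q : Ix n L, tt A S ψ p q =
    ((|A.det| ^ (-p.2.1) : ℝ) : ℂ) * ∑ a, ∑ b, (S a b : ℂ) * axd A ψ p q a * gyd A ψ p q b

/-- MODULE LB (Bessel bound for the position coefficients).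
PROOF. `axd p q a = ⟨X, b q⟩` with `X = toLp ((A^i x - k)_a aff p)`, so the sum of the squares is
`‖X‖²` (Parseval for the Hilbert basis of BS), and substituting `y = A^i x - k`
`‖X‖² = ∫ D^i |(A^i x - k)_a|² |ψ_l(A^i x - k)|² dx = ∫ |y_a|² |ψ_l(y)|² dy`, which does not depend
on `i, k`; take the maximum over `l, a`. (`X ∈ L²`: LX.) -/
def StLB : Prop := ∀ (n L : ℕ) (N : ℝ) (A : Matrix (Fin n) (Fin n) ℝ) (ψ : Fin L → E n → ℂ),
  Good N A ψ → ∃ K : ℝ, 0 ≤ K ∧ ∀ (p : Ix n L) (a : Fin n),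
    Summable (fun q => ‖axd A ψ p q a‖ ^ 2) ∧ ∑' q, ‖axd A ψ p q a‖ ^ 2 ≤ K

/-- MODULE LC (decay of the frequency coefficients).
PROOF. Hypotheses PB, ZO, DE. With `g(ξ) = (B^(-i) ξ)_b fa p ξ` (in `L²`: LF with
`w = A^(-i) e_b`), PB for each `Ψ_m` (bounds: `Wav.WellLocalized.fourier_bound`, a common constant
for all `m`, `N2Aux.common_bound`) gives
`Σ_{m,k'} |gyd p (m,j,k') b|² ≤ K Σ_m ∫ |(B^(-i) ξ)_b|² |fa p ξ|² |Ψ_m(B^(-j) ξ)| dξ`, and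
`|fa p ξ|² = D^(-i) |Ψ_l(B^(-i) ξ)|²`, so substituting `ξ = B^i η` the integral is
`∫ |η_b|² |Ψ_l(η)|² |Ψ_m(B^(-(j-i)) η)| dη`, which is at most `K' r^|j-i|` by DE (Hölder
continuity: `Wav.fourier_holder`, `N2Aux.common_holder`; `Ψ_m(0) = 0`: ZO). Common constants for
the finitely many `l, m`. -/
def StLC : Prop := ∀ (n L : ℕ) (N : ℝ) (A : Matrix (Fin n) (Fin n) ℝ) (ψ : Fin L → E n → ℂ),
  Good N A ψ → ∃ K r : ℝ, 0 ≤ K ∧ 0 ≤ r ∧ r < 1 ∧ ∀ (p : Ix n L) (j : ℤ) (b : Fin n),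
    Summable (fun mk : Fin L × (Fin n → ℤ) => ‖gyd A ψ p (mk.1, j, mk.2) b‖ ^ 2) ∧
    ∑' mk : Fin L × (Fin n → ℤ), ‖gyd A ψ p (mk.1, j, mk.2) b‖ ^ 2 ≤
      K * r ^ (j - p.2.1).natAbs

/-- MODULE LD (decay in the scale).
PROOF. Hypotheses LA, LB, LC. `‖tt p q‖ ≤ D^(-i) Σ_{a,b} |S_{ab}| ‖axd a‖ ‖gyd b‖`; sum over the
`q` of scale `j` and use Cauchy-Schwarz (`Real.inner_le_nnorm_mul_nnorm`,
`Real.summable_and_inner_le_Lp_mul_Lq_tsum_of_nonneg` or the `L²` version): at most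
`D^(-i) Σ |S_{ab}| √K √(K' r^|j-i|)`. The new ratio is `√r`. -/
def StLD : Prop := ∀ (n L : ℕ) (N : ℝ) (A S : Matrix (Fin n) (Fin n) ℝ) (ψ : Fin L → E n → ℂ),
  Good N A ψ → ∃ K r : ℝ, 0 ≤ K ∧ 0 ≤ r ∧ r < 1 ∧ ∀ (p : Ix n L) (j : ℤ),
    Summable (fun mk : Fin L × (Fin n → ℤ) => ‖tt A S ψ p (mk.1, j, mk.2)‖) ∧
    ∑' mk : Fin L × (Fin n → ℤ), ‖tt A S ψ p (mk.1, j, mk.2)‖ ≤
      K * |A.det| ^ (-p.2.1) * r ^ (j - p.2.1).natAbs

/-- MODULE SA (spatial tails, general form).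
PROOF. `f, h ∈ L²`, the translates `h(x - M k)` form a Bessel sequence with bound `1`. Let `ε > 0`.
Choose `R₁` with `‖f - f₁‖² ≤ ε/4`, `f₁ = f` on the ball of radius `R₁` and `0` outside. For every
`y` and `k` the coefficient is `⟨(f - f₁)(· - y), h(· - Mk)⟩ + ⟨f₁(· - y), h(· - Mk)⟩`, and
`|a + b|² ≤ 2|a|² + 2|b|²`. The sum of the `2|a|²` is at most `2 ‖f - f₁‖² ≤ ε/2` (Bessel). By
Cauchy-Schwarz `|b|² ≤ ‖f‖² ∫_{B(y - Mk, R₁)} |h|²`. Let `c` be the maximal number of points `Mk` in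
a ball of radius `R₁` (finite, `M` is invertible: `‖M k - M k'‖ ≥ c' ‖k - k'‖`). The sum over the
`k` with `‖Mk - y‖ > ρ` of the `|b|²` is at most `c ‖f‖² ∫_{‖x‖ > ρ - R₁} |h|²`, which tends to `0`
as `ρ → ∞`; choose `ρ`. (Work with `tsum` in `ℝ≥0∞` or with summable real families; the family is
summable by Bessel.) -/
def StSA : Prop := ∀ (n : ℕ) (M : Matrix (Fin n) (Fin n) ℝ) (f h : E n → ℂ), M.det ≠ 0 →
  MemLp f 2 (volume : Measure (E n)) → MemLp h 2 (volume : Measure (E n)) →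
  (∀ g : E n → ℂ, MemLp g 2 (volume : Measure (E n)) →
    Summable (fun k : Fin n → ℤ => ‖∫ x, conj (g x) * h (x - act M (ivec k))‖ ^ 2) ∧
    ∑' k : Fin n → ℤ, ‖∫ x, conj (g x) * h (x - act M (ivec k))‖ ^ 2 ≤ ∫ x, ‖g x‖ ^ 2) →
  ∀ ε : ℝ, 0 < ε → ∃ ρ : ℝ, 0 < ρ ∧ ∀ y : E n,
    ∑' k : Fin n → ℤ, (if ρ < ‖act M (ivec k) - y‖ then
      ‖∫ x, conj (f (x - y)) * h (x - act M (ivec k))‖ ^ 2 else 0) ≤ ε

/-- MODULE SB (spatial tails of the coefficients).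
PROOF. Hypotheses BS, LX, LF, SA. Fix the scales `i, j`. For `p = (l, i, k)` and `q = (m, j, k')`,
`aff p x = aff (l,i,0) (x - ctr p)` and `aff q x = aff (m,j,0) (x - ctr q)`, `ctr q = A^(-j) k'`, so
`ax p q e_a = ∫ conj (f(x - ctr p)) h(x - A^(-j) k')` with `f = ⟨e_a, x⟩ aff (l,i,0)`,
`h = aff (m,j,0)`, and SA (`M = A^(-j)`, Bessel from BS) makes the sum over the `k'` with
`‖ctr q - ctr p‖ > ρ` of `‖ax p q e_a‖²` at most `ε'` for all `k`. The sum over all `q` of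
`‖gy p q w‖²` is at most `∫ |⟨w, ξ⟩|² |fa p ξ|² dξ` (Bessel for the system `fa q`), which does not
depend on `k`. Use Cauchy-Schwarz for each `a` (`w = (Sj i)ᵀ e_a`), and sum over the finitely many
`a, l, m`. -/
def StSB : Prop := ∀ (n L : ℕ) (N : ℝ) (A S : Matrix (Fin n) (Fin n) ℝ) (ψ : Fin L → E n → ℂ),
  Good N A ψ → ∀ (i j : ℤ) (ε : ℝ), 0 < ε → ∃ ρ : ℝ, 0 < ρ ∧ ∀ (l : Fin L) (k : Fin n → ℤ),
    ∑' mk : Fin L × (Fin n → ℤ), (if ρ < ‖ctr A (mk.1, j, mk.2) - ctr A (l, i, k)‖ then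
      ‖tt A S ψ (l, i, k) (mk.1, j, mk.2)‖ else 0) ≤ ε

/-- MODULE CT (counting). Number of lattice points `A^(-i) k` in the ball of radius `R`.
PROOF. `{k | ‖A^(-i) k‖ ≤ R} = ℤⁿ ∩ R s`, `s = {x | ‖A^(-i) x‖ ≤ 1}` (convex, bounded, closed; its
frontier has measure zero: `Convex.addHaar_frontier`). Mathlib
(`Mathlib.Analysis.BoxIntegral.UnitPartition`): `tendsto_card_div_pow_atTop_volume` gives
`#/R^n → vol s = D^i vol (unit ball)` (`Wav.map_act`, `Wav.det_zpow'`). -/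
def StCT : Prop := ∀ (n : ℕ) (A : Matrix (Fin n) (Fin n) ℝ), A.det ≠ 0 → ∃ V : ℝ, 0 < V ∧
  ∀ i : ℤ, (∀ R : ℝ, {k : Fin n → ℤ | ‖act (A ^ (-i)) (ivec k)‖ ≤ R}.Finite) ∧
    Tendsto (fun R : ℕ => (Nat.card {k : Fin n → ℤ // ‖act (A ^ (-i)) (ivec k)‖ ≤ (R : ℝ)} : ℝ) /
      (R : ℝ) ^ n) atTop (𝓝 (|A.det| ^ i * V))

/-- MODULE AB (abstract summation argument). `K` is the set of positions, `c i k` the position of
`(i, k)`, `D > 0`, `T` an antisymmetric real matrix on `Fin L × ℤ × K`.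
PROOF. Let `J ∈ ℕ`, `ε > 0`. Choose a natural number `ρ` which works in (d) for all `|i|, |j| ≤ J`
and this `ε` (finitely many pairs; a larger `ρ` also works). For natural `R ≥ ρ` let `Λ` be the
finite set of `p = (l, i, k)` with `|i| ≤ J`, `‖c i k‖ ≤ R`. Sum (b) over `p ∈ Λ`:
`Σ_{p∈Λ} τ D^(-i) = Σ_{p∈Λ} Σ'_{q∉Λ} T p q`, because `Σ_{p,q∈Λ} T p q = 0` by antisymmetry. For
`p = (l, i, k) ∈ Λ`, `Σ_{q∉Λ} |T p q|` is at most the sum over the `q` of scale `|j| > J`, which is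
at most `C D^(-i) (r^(J+1-i) + r^(J+1+i)) / (1-r)` by (c), plus the sum over `|j| ≤ J` and
`‖c j k'‖ > R`; if `‖c i k‖ ≤ R - ρ` then these `q` have `‖c j k' - c i k‖ > ρ` and the sum is at
most `(2J+1) ε` by (d); if `R - ρ < ‖c i k‖ ≤ R` it is at most `2 C D^(-i)/(1-r)` by (c). Let
`N_i(R)` be the number of `k` with `‖c i k‖ ≤ R`. Then, with `L` the number of generators,
`|τ| L Σ_{|i|≤J} D^(-i) N_i(R) ≤ L Σ_{|i|≤J} [N_i(R) D^(-i) C (r^(J+1-i) + r^(J+1+i))/(1-r) +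
N_i(R) (2J+1) ε + (N_i(R) - N_i(R-ρ)) 2 C D^(-i)/(1-r)]`. Divide by `R^n` and let `R → ∞`:
`N_i(R)/R^n → D^i V` and `N_i(R-ρ)/R^n → D^i V`, so
`|τ| L V (2J+1) ≤ L V C Σ_{|i|≤J} (r^(J+1-i) + r^(J+1+i))/(1-r) + L (2J+1)² ε V max_i D^i`, the
first term is at most `2 L V C/(1-r)²`. Let `ε → 0`, then `J → ∞`: `τ = 0` (`L > 0`). -/
def StAB : Prop := ∀ (n L : ℕ) (K : Type) (c : ℤ → K → E n) (D V τ C r : ℝ)
  (T : Fin L × ℤ × K → Fin L × ℤ × K → ℝ), 0 < L → 0 < D → 0 < V → 0 ≤ C → 0 ≤ r → r < 1 →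
  (∀ (i : ℤ) (R : ℝ), {k : K | ‖c i k‖ ≤ R}.Finite) →
  (∀ i : ℤ, Tendsto (fun R : ℕ => (Nat.card {k : K // ‖c i k‖ ≤ (R : ℝ)} : ℝ) / (R : ℝ) ^ n) atTop
    (𝓝 (D ^ i * V))) →
  (∀ p q, T p q = -T q p) →
  (∀ p, HasSum (fun q => T p q) (τ * D ^ (-p.2.1))) →
  (∀ p (j : ℤ), Summable (fun mk : Fin L × K => |T p (mk.1, j, mk.2)|) ∧
    ∑' mk : Fin L × K, |T p (mk.1, j, mk.2)| ≤ C * D ^ (-p.2.1) * r ^ (j - p.2.1).natAbs) →
  (∀ (i j : ℤ) (ε : ℝ), 0 < ε → ∃ ρ : ℝ, 0 < ρ ∧ ∀ (l : Fin L) (k : K),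
    ∑' mk : Fin L × K, (if ρ < ‖c j mk.2 - c i k‖ then |T (l, i, k) (mk.1, j, mk.2)| else 0) ≤ ε) →
  τ = 0

/-- MODULE MN (the trace theorem).
PROOF. Hypotheses SY, SU, LD, SB, CT, AB: `T p q = (tt p q).im`, `K = Fin n → ℤ`,
`c i k = A^(-i) k`, `τ = trace S / (4π)`, `D = |det A|`; `|im z| ≤ ‖z‖`. `0 < L`: otherwise the
Hilbert basis is empty and `L²(E n) = 0`, but the indicator of the unit ball is not `0`. -/
def StMN : Prop := ∀ (n L : ℕ) (N : ℝ) (A S : Matrix (Fin n) (Fin n) ℝ) (ψ : Fin L → E n → ℂ),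
  Good N A ψ → Compat A S → S.trace = 0

/-- MODULE DU (duality). If all compatible matrices have trace `0`, the flux condition holds.
PROOF. Let `W` be the set of the matrices `Σ_{d∈s} (Q d - D^(-d) B^(-d) Q_d B^d)` with the
conditions of `Flux` (or take the span of the single terms `Q - D^(-d) B^(-d) Q B^d`, `d ≥ 1`,
columns of `Q` in `U_d = span (G_0 ∩ G_d)`: for fixed `d` these form a subspace, so every element
of the span of all of them is a finite sum with one `Q` for each `d`). It is a subspace of the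
space of matrices. If `1 ∉ W`, there is a linear functional which vanishes on `W` and not at `1`
(`Submodule.exists_le_ker_of_notMem` or `Submodule.exists_dual_map_eq_bot_of_notMem`); it is of the
form `M ↦ trace (S M)` (`Matrix.traceLinearMap`, nondegeneracy; or `S_{ab}` = value at the
elementary matrix `E_{ba}`). For `u ∈ G_0 ∩ G_d`, `d ≥ 1`, and `a`, take `Q = u e_aᵀ`
(`Matrix.vecMulVec`): `0 = trace (S Q) - D^(-d) trace (S B^(-d) Q B^d) =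
trace ((S - D^(-d) B^d S B^(-d)) u e_aᵀ) = ((S - Sj d) u)_a`. So `S u = Sj d u`, CP gives
`Compat A S`, hence `trace S = 0`, but `trace (S 1) ≠ 0`. -/
def StDU : Prop := ∀ (n : ℕ) (A : Matrix (Fin n) (Fin n) ℝ), A.det ≠ 0 →
  (∀ S : Matrix (Fin n) (Fin n) ℝ, Compat A S → S.trace = 0) → Flux A

/-- MODULE CF (the free families). If `n` distinct powers `B^c h` of one vector are integer
vectors and linearly independent over `ℝ`, and the flux condition holds, then `P(B) = 0` for some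
nonzero rational polynomial `P`.
PROOF. Suppose not. Then the vectors `B^m h`, `m ∈ ℤ`, are linearly independent over `ℚ` (a
relation, multiplied by a power of `B`, gives `P(B) h = 0` with a nonzero rational polynomial `P`,
so `P(B) B^(c i) h = 0` for all `i` and `P(B) = 0`). Let `S` be the real matrix with
`S B^(c i) h = D^(-c i) B^(c i) h` (basis). `S` has trace `Σ_i D^(-c i) > 0`. For the flux
condition we need: for `d ≥ 1` and `u ∈ ℤⁿ ∩ B^d ℤⁿ`, `S u = Sj d u`. The vectors `B^(c i) h` are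
integer and independent, so they are a `ℚ`-basis of `ℚⁿ` (determinant): `u = Σ_i a_i B^(c i) h` and
`B^(-d) u = Σ_i b_i B^(c i) h` with rational `a_i, b_i`, and `Σ a_i B^(c i) h = Σ b_i B^(c i + d) h`;
by the linear independence over `ℚ` of all `B^m h`, the Laurent polynomials `Σ a_i x^(c i)` and
`Σ b_i x^(c i + d)` are equal. Then `S u = Σ a_i D^(-c i) B^(c i) h` and
`Sj d u = D^(-d) B^d S B^(-d) u = D^(-d) B^d Σ b_i D^(-c i) B^(c i) h =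
Σ b_i D^(-(c i + d)) B^(c i + d) h` are the values of the same Laurent polynomial at `B/D`, applied
to `h`: equal. By the flux condition `n`-dimensional duality: `trace (S (Q - D^(-d) B^(-d) Q B^d)) =
trace ((S - Sj d) Q) = 0` for every `Q` with columns in `span (G_0 ∩ G_d)` (the column space is
killed by `S - Sj d`), so `trace S = trace (S 1) = 0`, a contradiction. -/
def StCF : Prop := ∀ (n : ℕ) (A : Matrix (Fin n) (Fin n) ℝ), 0 < n → A.det ≠ 0 → Flux A →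
  ∀ (h : E n) (c : Fin n → ℤ), Function.Injective c →
    (∀ i, act (Aᵀ ^ c i) h ∈ WavN.Lat A 0) →
    LinearIndependent ℝ (fun i => act (Aᵀ ^ c i) h) →
    ∃ P : Polynomial ℚ, P ≠ 0 ∧ Polynomial.aeval A P = 0

end Pool.Agent.Helper71.FX
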